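import Pool.Agent.Lib.MP_42a48c_pr.Solution

/-!
# The walk in `D` permutes the acyclic configurations
-/

open Finset

namespace Pool.Agent.Lib.MP_42a48c_pr

universe u

variable {V : Type u} {G : SimpleGraph V}

/-- no nonempty subset of `D` is closed under `ρ` -/
def Acyc (D : Finset V) (ρ : Config G) : Prop :=
  ∀ C ⊆ D, C.Nonempty → ∃ x ∈ C, (ρ x : V) ∉ C

variable (τ : RotorMechanism G) (a : V) [G.LocallyFinite] (hG : G.Connected) [Infinite V]
include hG

lemma sg_acyc {D : Finset V} {ρ : Config G} (h : Acyc D ρ) : Acyc D (sg τ a D ρ) := by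
  classical
  by_contra hcon
  unfold Acyc at hcon
  push Not at hcon
  obtain ⟨C, hCD, hCne, hC⟩ := hcon
  set η := sg τ a D ρ with hη
  set v := od τ a D 1 ρ with hv
  have hηv : ∀ y, η y = ((τ.next y) ^ (v y)) (ρ y) := fun y => rfl
  -- positive values propagate
  have hpos : ∀ z ∈ C, 0 < v z → 0 < v (η z : V) := by
    intro z hz hvz
    have h1 := od_eq τ a hG 1 ρ (hCD (hC z hz))
    rw [← hv] at h1
    have h2 : 0 < cnt τ z (ρ z) (v z) (η z : V) := by
      obtain ⟨m, hm⟩ := Nat.exists_eq_succ_of_ne_zero hvz.ne'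
      rw [hηv z, hm, cnt_succ]
      simp
    have h3 : cnt τ z (ρ z) (v z) (η z : V) ≤ bal τ a D 1 ρ v (η z : V) := by
      unfold bal
      refine le_trans ?_ (Nat.le_add_left _ _)
      exact single_le_sum (f := fun y => cnt τ y (ρ y) (v y) (η z : V)) (fun _ _ => Nat.zero_le _)
        (hCD hz)
    omega
  set C0 := C.filter (fun z => 0 < v z) with hC0
  have hC0cl : ∀ z ∈ C0, (η z : V) ∈ C0 := by
    intro z hz
    rw [hC0, mem_filter] at hz ⊢
    exact ⟨hC z hz.1, hpos z hz.1 hz.2⟩
  rcases C0.eq_empty_or_nonempty with he | hne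
  · obtain ⟨x, hx, hx'⟩ := h C hCD hCne
    apply hx'
    have h0 : v x = 0 := by
      by_contra hvx
      have : x ∈ C0 := by rw [hC0, mem_filter]; exact ⟨hx, Nat.pos_of_ne_zero hvx⟩
      rw [he] at this; simp at this
    have : η x = ρ x := by rw [hηv, h0]; simp
    rw [← this]
    exact hC x hx
  · -- minimal closed subset
    obtain ⟨C1, hC1, hmin⟩ := exists_min_image
      (C0.powerset.filter (fun E => E.Nonempty ∧ ∀ x ∈ E, (η x : V) ∈ E)) card
      ⟨C0, by rw [mem_filter]; exact ⟨mem_powerset_self _, hne, hC0cl⟩⟩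
    rw [mem_filter, mem_powerset] at hC1
    obtain ⟨hC1sub, hC1ne, hC1cl⟩ := hC1
    have himg : C1.image (fun x => (η x : V)) = C1 := by
      apply eq_of_subset_of_card_le
      · intro y hy
        rw [mem_image] at hy
        obtain ⟨x, hx, rfl⟩ := hy
        exact hC1cl x hx
      · apply hmin
        rw [mem_filter, mem_powerset]
        refine ⟨?_, hC1ne.image _, ?_⟩
        · intro y hy
          rw [mem_image] at hy
          obtain ⟨x, hx, rfl⟩ := hy
          exact hC1sub (hC1cl x hx)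
        · intro y hy
          rw [mem_image] at hy
          obtain ⟨x, hx, rfl⟩ := hy
          exact mem_image_of_mem _ (hC1cl x hx)
    have hC1D : C1 ⊆ D := fun x hx => hCD (mem_filter.1 (hC1sub hx)).1
    have hC1pos : ∀ x ∈ C1, 0 < v x := fun x hx => (mem_filter.1 (hC1sub hx)).2
    set v' : V → ℕ := fun y => if y ∈ C1 then v y - 1 else v y with hv'
    have hsol : IsSol τ a D 1 ρ v' := by
      intro x hx
      have key : bal τ a D 1 ρ v' x + ∑ y ∈ D, (if y ∈ C1 ∧ (η y : V) = x then 1 else 0) =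
          bal τ a D 1 ρ v x := by
        unfold bal
        rw [add_assoc, ← sum_add_distrib]
        congr 1
        apply sum_congr rfl
        intro y _
        by_cases hy : y ∈ C1
        · have hp := hC1pos y hy
          obtain ⟨m, hm⟩ := Nat.exists_eq_succ_of_ne_zero hp.ne'
          have h1 : v' y = m := by simp [hv', hy, hm]
          rw [h1, hηv y, hm, Nat.succ_eq_add_one, cnt_succ]
          simp [hy]
        · simp [hv', hy]
      have hle : (if x ∈ C1 then 1 else 0) ≤ ∑ y ∈ D, (if y ∈ C1 ∧ (η y : V) = x then 1 else 0) := by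
        split_ifs with hxC
        · rw [← himg, mem_image] at hxC
          obtain ⟨y, hy, hyx⟩ := hxC
          have h1 : (1 : ℕ) = if y ∈ C1 ∧ (η y : V) = x then 1 else 0 := by simp [hy, hyx]
          refine h1.le.trans ?_
          exact single_le_sum (f := fun y => if y ∈ C1 ∧ (η y : V) = x then 1 else 0)
            (fun _ _ => Nat.zero_le _) (hC1D hy)
        · exact Nat.zero_le _
      have h2 := od_isSol τ a hG D 1 ρ x hx
      rw [← hv] at h2
      have h3 : v x = v' x + (if x ∈ C1 then 1 else 0) := by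
        simp only [hv']
        split_ifs with hxC
        · have := hC1pos x hxC; omega
        · rfl
      omega
    obtain ⟨x, hx⟩ := hC1ne
    have h1 := od_le τ a hsol x
    rw [← hv] at h1
    have h2 := hC1pos x hx
    have h3 : v' x = v x - 1 := by simp [hv', hx]
    omega

lemma sg_inj_aux {D : Finset V} {ρ ρ' : Config G} (h' : Acyc D ρ')
    (heq : sg τ a D ρ = sg τ a D ρ') (x : V) : od τ a D 1 ρ x ≤ od τ a D 1 ρ' x := by
  classical
  set v := od τ a D 1 ρ with hv
  set v' := od τ a D 1 ρ' with hv'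
  by_contra hcon
  push Not at hcon
  set A := D.filter (fun y => v' y < v y) with hA
  have hrel : ∀ y, ((τ.next y) ^ (v y)) (ρ y) = ((τ.next y) ^ (v' y)) (ρ' y) := fun y =>
    congrFun heq y
  have hxA : x ∈ A := by
    rw [hA, mem_filter]
    refine ⟨?_, hcon⟩
    by_contra hxD
    have : v x = 0 := od_off τ a hG 1 ρ hxD
    omega
  obtain ⟨y0, hy0, hy0'⟩ := h' A (filter_subset _ _) ⟨x, hxA⟩
  -- pointwise inequality
  have hpt : ∀ y ∈ D, (∑ z ∈ A, cnt τ y (ρ y) (v y) z) + (if y ∈ A then v' y else 0) ≤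
      (∑ z ∈ A, cnt τ y (ρ' y) (v' y) z) + (if y ∈ A then v y else 0) := by
    intro y hy
    by_cases hyA : y ∈ A
    · have hlt : v' y < v y := (mem_filter.1 hyA).2
      have hr : ((τ.next y) ^ (v y - v' y)) (ρ y) = ρ' y := by
        apply ((τ.next y) ^ (v' y)).injective
        rw [← hrel y, ← Equiv.Perm.mul_apply, ← pow_add]
        congr 2; omega
      have hs : ∑ z ∈ A, cnt τ y (ρ y) (v y) z =
          ∑ z ∈ A, cnt τ y (ρ y) (v y - v' y) z + ∑ z ∈ A, cnt τ y (ρ' y) (v' y) z := by
        rw [← sum_add_distrib]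
        apply sum_congr rfl
        intro z _
        rw [← hr, ← cnt_add]
        congr 1; omega
      have hb := sum_cnt_le τ y (ρ y) (v y - v' y) A
      simp only [hyA, if_true]
      omega
    · have hle : v y ≤ v' y := by
        by_contra hc
        exact hyA (mem_filter.2 ⟨hy, not_le.1 hc⟩)
      have hr : ((τ.next y) ^ (v' y - v y)) (ρ' y) = ρ y := by
        apply ((τ.next y) ^ (v y)).injective
        rw [hrel y, ← Equiv.Perm.mul_apply, ← pow_add]
        congr 2; omega
      simp only [hyA, if_false, add_zero]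
      apply sum_le_sum
      intro z _
      have : cnt τ y (ρ' y) (v' y) z = cnt τ y (ρ' y) (v' y - v y) z + cnt τ y (ρ y) (v y) z := by
        rw [← hr, ← cnt_add]
        congr 1; omega
      omega
  -- strict at y0
  have hstrict : (∑ z ∈ A, cnt τ y0 (ρ y0) (v y0) z) + (if y0 ∈ A then v' y0 else 0) <
      (∑ z ∈ A, cnt τ y0 (ρ' y0) (v' y0) z) + (if y0 ∈ A then v y0 else 0) := by
    have hlt : v' y0 < v y0 := (mem_filter.1 hy0).2
    have hr : ((τ.next y0) ^ (v y0 - v' y0)) (ρ y0) = ρ' y0 := by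
      apply ((τ.next y0) ^ (v' y0)).injective
      rw [← hrel y0, ← Equiv.Perm.mul_apply, ← pow_add]
      congr 2; omega
    have hs : ∑ z ∈ A, cnt τ y0 (ρ y0) (v y0) z =
        ∑ z ∈ A, cnt τ y0 (ρ y0) (v y0 - v' y0) z + ∑ z ∈ A, cnt τ y0 (ρ' y0) (v' y0) z := by
      rw [← sum_add_distrib]
      apply sum_congr rfl
      intro z _
      rw [← hr, ← cnt_add]
      congr 1; omega
    have hb : ∑ z ∈ A, cnt τ y0 (ρ y0) (v y0 - v' y0) z < v y0 - v' y0 := by
      obtain ⟨m, hm⟩ := Nat.exists_eq_succ_of_ne_zero (Nat.sub_pos_of_lt hlt).ne'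
      rw [hm, Nat.succ_eq_add_one]
      have h1 : ∀ z ∈ A, cnt τ y0 (ρ y0) (m + 1) z = cnt τ y0 (ρ y0) m z := by
        intro z hz
        rw [cnt_succ, if_neg, add_zero]
        intro hc
        rw [hm, Nat.succ_eq_add_one] at hr
        rw [hr] at hc
        exact hy0' (hc ▸ hz)
      rw [sum_congr rfl h1]
      exact Nat.lt_succ_of_le (sum_cnt_le τ y0 (ρ y0) m A)
    simp only [hy0, if_true]
    omega
  have hsum := sum_lt_sum hpt ⟨y0, (mem_filter.1 hy0).1, hstrict⟩
  rw [sum_add_distrib, sum_add_distrib, ← sum_filter, ← sum_filter] at hsum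
  have hfA : D.filter (fun y => y ∈ A) = A := by
    ext y; simp only [mem_filter, hA]; tauto
  rw [hfA] at hsum
  -- balance equations summed over A
  have hb : ∀ (n : ℕ) (ρ : Config G), ∑ x ∈ A, od τ a D n ρ x =
      (∑ x ∈ A, if x = a then n else 0) + ∑ y ∈ D, ∑ z ∈ A, cnt τ y (ρ y) (od τ a D n ρ y) z := by
    intro n ρ
    rw [sum_comm (s := D), ← sum_add_distrib]
    apply sum_congr rfl
    intro x hx
    conv_lhs => rw [← od_eq τ a hG n ρ (mem_filter.1 hx).1]
    unfold bal
    rfl
  have hb1 := hb 1 ρ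
  have hb2 := hb 1 ρ'
  rw [← hv] at hb1
  rw [← hv'] at hb2
  omega

lemma sg_inj {D : Finset V} {ρ ρ' : Config G} (h : Acyc D ρ) (h' : Acyc D ρ')
    (heq : sg τ a D ρ = sg τ a D ρ') : ρ = ρ' := by
  have h1 : ∀ x, od τ a D 1 ρ x = od τ a D 1 ρ' x := fun x =>
    le_antisymm (sg_inj_aux τ a hG h' heq x) (sg_inj_aux τ a hG h heq.symm x)
  funext x
  have h2 := congrFun heq x
  simp only [sg, h1 x] at h2
  exact ((τ.next x) ^ (od τ a D 1 ρ' x)).injective h2

end Pool.Agent.Lib.MP_42a48c_pr
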