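import Pool.Agent.Lib.MP_42a48c_pr.Defs

/-!
# Counting rotor moves
-/

open Finset

namespace Pool.Agent.Lib.MP_42a48c_pr

universe u

variable {V : Type u} {G : SimpleGraph V}

open Classical in
/-- `cnt τ y c m x`: among the first `m` moves of the rotor at `y` started in position `c`, the
number of those which point to `x`. -/
noncomputable def cnt (τ : RotorMechanism G) (y : V) (c : G.neighborSet y) (m : ℕ) (x : V) : ℕ :=
  #{i ∈ range m | (((τ.next y) ^ (i + 1)) c : V) = x}

variable (τ : RotorMechanism G)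

lemma cnt_zero (y : V) (c : G.neighborSet y) (x : V) : cnt τ y c 0 x = 0 := by
  simp [cnt]

lemma cnt_mono (y : V) (c : G.neighborSet y) {m m' : ℕ} (h : m ≤ m') (x : V) :
    cnt τ y c m x ≤ cnt τ y c m' x := by
  classical
  unfold cnt
  apply card_le_card
  apply filter_subset_filter
  exact range_subset_range.2 h

lemma cnt_succ (y : V) (c : G.neighborSet y) (m : ℕ) (x : V) [Decidable ((((τ.next y) ^ (m + 1)) c : V) = x)] :
    cnt τ y c (m + 1) x = cnt τ y c m x + if (((τ.next y) ^ (m + 1)) c : V) = x then 1 else 0 := by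
  unfold cnt
  rw [range_add_one, filter_insert]
  split_ifs with h
  · rw [card_insert_of_notMem (by simp)]
  · rfl

lemma cnt_add (y : V) (c : G.neighborSet y) (m k : ℕ) (x : V) :
    cnt τ y c (m + k) x = cnt τ y c m x + cnt τ y (((τ.next y) ^ m) c) k x := by
  classical
  induction k with
  | zero => simp [cnt_zero]
  | succ k ih =>
    rw [← add_assoc, cnt_succ, ih, cnt_succ]
    have : (τ.next y ^ (m + k + 1)) c = (τ.next y ^ (k + 1)) ((τ.next y ^ m) c) := by
      rw [← Equiv.Perm.mul_apply, ← pow_add]; congr 2; omega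
    rw [this]; ring

lemma cnt_sub (y : V) (c : G.neighborSet y) {m k : ℕ} (h : m ≤ k) (x : V) :
    cnt τ y c k x = cnt τ y c m x + cnt τ y (((τ.next y) ^ m) c) (k - m) x := by
  rw [← cnt_add, Nat.add_sub_cancel' h]

lemma cnt_of_not_adj (y : V) (c : G.neighborSet y) (m : ℕ) {x : V} (h : ¬ G.Adj y x) :
    cnt τ y c m x = 0 := by
  classical
  unfold cnt
  rw [card_eq_zero, filter_eq_empty_iff]
  intro i _ hi
  apply h
  rw [← hi]
  exact (((τ.next y) ^ (i + 1)) c).2

lemma cnt_le (y : V) (c : G.neighborSet y) (m : ℕ) (x : V) : cnt τ y c m x ≤ m := by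
  classical
  unfold cnt
  exact (card_filter_le _ _).trans (by simp)

/-- the moves which land in a finite set `A`. -/
lemma sum_cnt_eq (y : V) (c : G.neighborSet y) (m : ℕ) (A : Finset V)
    [DecidablePred fun i : ℕ => (((τ.next y) ^ (i + 1)) c : V) ∈ A] :
    ∑ x ∈ A, cnt τ y c m x = #{i ∈ range m | (((τ.next y) ^ (i + 1)) c : V) ∈ A} := by
  classical
  unfold cnt
  rw [← card_biUnion]
  · congr 1
    ext i
    simp only [mem_biUnion, mem_filter, mem_range]
    constructor
    · rintro ⟨x, hx, h1, h2⟩; exact ⟨h1, h2 ▸ hx⟩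
    · rintro ⟨h1, h2⟩; exact ⟨_, h2, h1, rfl⟩
  · intro x _ x' _ hne
    rw [Function.onFun, disjoint_left]
    intro i hi hi'
    simp only [mem_filter] at hi hi'
    exact hne (hi.2.symm.trans hi'.2)

lemma sum_cnt_le (y : V) (c : G.neighborSet y) (m : ℕ) (A : Finset V) :
    ∑ x ∈ A, cnt τ y c m x ≤ m := by
  classical
  rw [sum_cnt_eq]
  exact (card_filter_le _ _).trans (by simp)

section finite

variable [G.LocallyFinite]

lemma isCycleOn_univ (y : V) : (τ.next y).IsCycleOn ((univ : Finset (G.neighborSet y)) : Set _) := by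
  refine ⟨?_, ?_⟩
  · simp only [coe_univ]
    exact Set.bijOn_univ.2 (τ.next y).bijective
  · intro b _ c _
    obtain ⟨k, hk⟩ := τ.single_orbit y b c
    exact ⟨k, by simpa using hk⟩

lemma card_univ_nbr (y : V) : #(univ : Finset (G.neighborSet y)) = G.degree y := by
  rw [card_univ, SimpleGraph.card_neighborSet_eq_degree]

lemma degree_pos_of_nbr {y : V} (c : G.neighborSet y) : 0 < G.degree y := by
  rw [← card_univ_nbr, card_pos]; exact ⟨c, mem_univ _⟩

lemma next_pow_eq_iff (y : V) (c : G.neighborSet y) (n : ℕ) :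
    ((τ.next y) ^ n) c = c ↔ G.degree y ∣ n := by
  rw [(isCycleOn_univ τ y).pow_apply_eq (mem_univ c), card_univ_nbr]

/-- exact value of `cnt`. -/
lemma cnt_eq (y : V) (c : G.neighborSet y) (m : ℕ) {x : V} (hx : G.Adj y x) :
    ∃ v : ℕ, cnt τ y c m x = m / G.degree y + if v % G.degree y < m % G.degree y then 1 else 0 := by
  classical
  have hd := degree_pos_of_nbr c
  obtain ⟨i0, hi0, hi0'⟩ := (isCycleOn_univ τ y).exists_pow_eq (mem_univ ((τ.next y) c))
    (mem_univ (⟨x, hx⟩ : G.neighborSet y))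
  refine ⟨i0, ?_⟩
  rw [← Nat.count_modEq_card _ hd, Nat.count_eq_card_filter_range]
  unfold cnt
  congr 1
  apply filter_congr
  intro i _
  have h1 : ((τ.next y) ^ (i + 1)) c = ((τ.next y) ^ i) ((τ.next y) c) := by
    rw [pow_succ, Equiv.Perm.mul_apply]
  rw [h1]
  have h2 : ((((τ.next y) ^ i) ((τ.next y) c) : G.neighborSet y) : V) = x ↔
      ((τ.next y) ^ i) ((τ.next y) c) = ((τ.next y) ^ i0) ((τ.next y) c) := by
    rw [hi0', Subtype.ext_iff]
  rw [h2, (isCycleOn_univ τ y).pow_apply_eq_pow_apply (mem_univ _), card_univ_nbr]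

lemma cnt_le_real (y : V) (c : G.neighborSet y) (m : ℕ) (x : V) :
    (cnt τ y c m x : ℝ) ≤ m / G.degree y + 1 := by
  have hd : (0 : ℝ) < G.degree y := by exact_mod_cast degree_pos_of_nbr c
  by_cases hx : G.Adj y x
  · obtain ⟨v, hv⟩ := cnt_eq τ y c m hx
    rw [hv]
    push_cast
    have : ((m / G.degree y : ℕ) : ℝ) ≤ m / G.degree y := Nat.cast_div_le
    split_ifs <;> simp <;> linarith
  · rw [cnt_of_not_adj τ y c m hx]
    push_cast; positivity

lemma le_cnt_real (y : V) (c : G.neighborSet y) (m : ℕ) {x : V} (hx : G.Adj y x) :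
    (m : ℝ) / G.degree y - 1 ≤ cnt τ y c m x := by
  have hd : (0 : ℝ) < G.degree y := by exact_mod_cast degree_pos_of_nbr c
  obtain ⟨v, hv⟩ := cnt_eq τ y c m hx
  rw [hv]
  have h1 : (m : ℝ) / G.degree y < ((m / G.degree y : ℕ) : ℝ) + 1 := by
    rw [div_lt_iff₀ hd]
    have := Nat.lt_div_mul_add (a := m) (degree_pos_of_nbr c)
    have h2 : (m : ℝ) < ((m / G.degree y : ℕ) : ℝ) * G.degree y + G.degree y := by exact_mod_cast this
    linarith
  push_cast
  split_ifs <;> simp <;> linarith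

lemma le_mul_of_cnt_le (y : V) (c : G.neighborSet y) (m : ℕ) {x : V} (hx : G.Adj y x) {C : ℕ}
    (h : cnt τ y c m x ≤ C) : m ≤ G.degree y * (C + 1) := by
  have hd : (0 : ℝ) < G.degree y := by exact_mod_cast degree_pos_of_nbr c
  have h1 := le_cnt_real τ y c m hx
  have h2 : (cnt τ y c m x : ℝ) ≤ C := by exact_mod_cast h
  have h3 : (m : ℝ) / G.degree y ≤ C + 1 := by linarith
  rw [div_le_iff₀ hd] at h3
  have h4 : (m : ℝ) ≤ ((G.degree y * (C + 1) : ℕ) : ℝ) := by push_cast; linarith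
  exact_mod_cast h4

lemma cnt_of_dvd (y : V) (c : G.neighborSet y) (m : ℕ) {x : V} (hx : G.Adj y x)
    (h : G.degree y ∣ m) : (cnt τ y c m x : ℝ) = m / G.degree y := by
  have hd : (G.degree y : ℝ) ≠ 0 := by exact_mod_cast (degree_pos_of_nbr c).ne'
  obtain ⟨v, hv⟩ := cnt_eq τ y c m hx
  have h2 : m % G.degree y = 0 := Nat.mod_eq_zero_of_dvd h
  rw [hv, h2]
  simp [Nat.cast_div h hd]

end finite

end Pool.Agent.Lib.MP_42a48c_pr
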