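import Mathlib

/-!
# Definitions for rotor walks, the Green function and the oriented wired uniform spanning forest
-/

open MeasureTheory Filter Topology
open scoped ENNReal

namespace Pool.Agent.Lib.MP_42a48c_pr

universe u

variable {V : Type u}

/-- A rotor configuration on `G`: a map `ρ` with `ρ x ∈ N(x)` for every vertex `x`. -/
abbrev Config (G : SimpleGraph V) : Type u := ∀ x : V, G.neighborSet x

/-- Each neighbour set carries the discrete sigma-algebra (so that `Config G` carries the
product sigma-algebra). -/
instance neighborMeasurableSpace (G : SimpleGraph V) (x : V) :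
    MeasurableSpace (G.neighborSet x) := ⊤

/-- A rotor mechanism: at each vertex `x` a bijection of `N(x)` onto itself with a single orbit. -/
structure RotorMechanism (G : SimpleGraph V) where
  /-- the bijection `τ_x` -/
  next : ∀ x : V, Equiv.Perm (G.neighborSet x)
  /-- it has a single orbit -/
  single_orbit : ∀ (x : V) (y z : G.neighborSet x), ∃ k : ℕ, (next x ^ k) y = z

variable {G : SimpleGraph V}

open Classical in
/-- One step of the rotor walk from the state `(position, configuration)`: the rotor at the current
position is advanced and the walker follows it. -/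
noncomputable def step (τ : RotorMechanism G) (s : V × Config G) : V × Config G :=
  ((τ.next s.1 (s.2 s.1) : V), Function.update s.2 s.1 (τ.next s.1 (s.2 s.1)))

/-- The state `(X_t, ρ_t)` at time `t` of the rotor walk started at `a` from `ρ`. -/
noncomputable def walk (τ : RotorMechanism G) (a : V) (ρ : Config G) (t : ℕ) : V × Config G :=
  (step τ)^[t] (a, ρ)

/-- The rotor walk started at `a` from `ρ` is transient: it visits every vertex finitely often. -/
def Transient (τ : RotorMechanism G) (a : V) (ρ : Config G) : Prop :=
  ∀ x : V, {t : ℕ | (walk τ a ρ t).1 = x}.Finite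

/-- `u(ρ, x)`: the number of visits to `x` of the rotor walk started at `a` from `ρ`. -/
noncomputable def visits (τ : RotorMechanism G) (a : V) (ρ : Config G) (x : V) : ℕ∞ :=
  {t : ℕ | (walk τ a ρ t).1 = x}.encard

open Classical in
/-- The final configuration `σ(ρ)`: `σ(ρ)(x)` is the eventual value of `ρ_t(x)` (with the junk
value `ρ x` if there is no eventual value). -/
noncomputable def final (τ : RotorMechanism G) (a : V) (ρ : Config G) : Config G := fun x =>
  if h : ∃ c : G.neighborSet x, ∀ᶠ t : ℕ in atTop, (walk τ a ρ t).2 x = c then h.choose else ρ x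

open Classical in
/-- The occupation number `S_n(ρ, x)`: the number of visits to `x` during `n` successive walks from
`a`, if they are all transient, and `∞` otherwise. -/
noncomputable def occ (τ : RotorMechanism G) (a : V) (n : ℕ) (ρ : Config G) (x : V) : ℝ≥0∞ :=
  if ∀ i < n, Transient τ a ((final τ a)^[i] ρ) then
    ∑ i ∈ Finset.range n, (visits τ a ((final τ a)^[i] ρ) x : ℝ≥0∞)
  else ⊤

open Classical in
/-- `srwProb G a t x`: the probability that simple random walk on `G` started at `a` is at `x` at
time `t`. -/
noncomputable def srwProb (G : SimpleGraph V) [G.LocallyFinite] (a : V) : ℕ → V → ℝ≥0∞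
  | 0, x => if x = a then 1 else 0
  | t + 1, x => ∑ y ∈ G.neighborFinset x, srwProb G a t y / (G.degree y : ℝ≥0∞)

/-- The Green function: the expected number of visits to `x` of simple random walk started at
`a`. -/
noncomputable def green (G : SimpleGraph V) [G.LocallyFinite] (a x : V) : ℝ≥0∞ :=
  ∑' t : ℕ, srwProb G a t x

/-- The vertices of `B_R ∖ Z_R`, that is, at distance less than `R` from `a`. -/
def inner (G : SimpleGraph V) (a : V) (R : ℕ) : Set V := {x | G.dist a x < R}

/-- `f` (an out-neighbour for each vertex of `B_R ∖ Z_R`, outdegree `0` on `Z_R`) is a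
`Z_R`-oriented spanning forest of `G_R`: it has no directed cycle. -/
def IsForest (G : SimpleGraph V) (a : V) (R : ℕ)
    (f : ∀ x : inner G a R, G.neighborSet (x : V)) : Prop :=
  ¬ ∃ (k : ℕ) (c : ℕ → inner G a R),
      0 < k ∧ (∀ i < k, (f (c i) : V) = (c (i + 1) : V)) ∧ c k = c 0

/-- The `OUSF(G_R, Z_R)`-probability that the uniform random forest agrees with `c` on `F`
(at the vertices of `F` which lie in `B_R ∖ Z_R`; for `R` large these are all vertices of `F`). -/
noncomputable def forestFreq (G : SimpleGraph V) (a : V) (R : ℕ) (F : Finset V) (c : Config G) :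
    ℝ :=
  ({f : ∀ x : inner G a R, G.neighborSet (x : V) | IsForest G a R f ∧
      ∀ x : inner G a R, (x : V) ∈ F → f x = c x}.ncard : ℝ) /
    ({f : ∀ x : inner G a R, G.neighborSet (x : V) | IsForest G a R f}.ncard : ℝ)

/-- `μ` is the oriented wired uniform spanning forest measure `OWUSF(G)`: the probability measure
on rotor configurations which is the weak limit of `OUSF(G_R, Z_R)` as `R → ∞`, i.e. the
probability of each cylinder event is the limit of its `OUSF(G_R, Z_R)`-probabilities. -/
structure IsOWUSF (G : SimpleGraph V) (a : V) (μ : Measure (Config G)) : Prop where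
  /-- `μ` is a probability measure -/
  prob : IsProbabilityMeasure μ
  /-- convergence of the probabilities of the cylinder events -/
  lim : ∀ (F : Finset V) (c : Config G),
    Tendsto (fun R : ℕ => forestFreq G a R F c) atTop (𝓝 (μ.real {ρ | ∀ x ∈ F, ρ x = c x}))

end Pool.Agent.Lib.MP_42a48c_pr
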