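import Pool.Agent.Lib.MP_42a48c_pr.Solution

/-!
# Comparison with the Green function
-/

open Finset Filter Topology
open scoped ENNReal

namespace Pool.Agent.Lib.MP_42a48c_pr

universe u

variable {V : Type u} {G : SimpleGraph V} [G.LocallyFinite] (a : V)

lemma degree_ne_zero_of_adj {x y : V} (h : G.Adj x y) : G.degree x ≠ 0 := by
  have := degree_pos_of_nbr (⟨y, h⟩ : G.neighborSet x)
  omega

lemma srwProb_ne_top (t : ℕ) (x : V) : srwProb G a t x ≠ ⊤ := by
  induction t generalizing x with
  | zero => simp only [srwProb]; split_ifs <;> simp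
  | succ t ih =>
    simp only [srwProb]
    apply ENNReal.sum_ne_top.2
    intro y hy
    rw [SimpleGraph.mem_neighborFinset] at hy
    exact ENNReal.div_ne_top (ih y) (by exact_mod_cast degree_ne_zero_of_adj hy.symm)

open Classical in
lemma green_eq (x : V) : green G a x =
    (if x = a then 1 else 0) + ∑ y ∈ G.neighborFinset x, green G a y / (G.degree y : ℝ≥0∞) := by
  unfold green
  rw [tsum_eq_zero_add' ENNReal.summable]
  simp only [srwProb]
  congr 1
  rw [Summable.tsum_finsetSum (fun _ _ => ENNReal.summable)]
  apply sum_congr rfl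
  intro y _
  simp only [div_eq_mul_inv]
  rw [ENNReal.tsum_mul_right]

lemma green_ne_top (hG : G.Connected) (ha : green G a a ≠ ⊤) (x : V) : green G a x ≠ ⊤ := by
  classical
  by_contra hx
  obtain ⟨y, hy, z, hz, hadj⟩ := exists_cut hG {x | green G a x ≠ ⊤} ⟨a, ha⟩
    ⟨x, fun h => h hx⟩
  simp only [Set.mem_ofPred_eq, not_not] at hz
  apply hy
  rw [green_eq, ENNReal.add_eq_top]
  right
  rw [ENNReal.sum_eq_top]
  refine ⟨z, by simpa using hadj, ?_⟩
  rw [hz, ENNReal.top_div]
  simp

open Classical in
lemma green_real_eq (hG : G.Connected) (ha : green G a a ≠ ⊤) (x : V) :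
    (green G a x).toReal = (if x = a then 1 else 0) +
      ∑ y ∈ G.neighborFinset x, (green G a y).toReal / (G.degree y : ℝ) := by
  rw [green_eq]
  have h : ∀ y ∈ G.neighborFinset x, green G a y / (G.degree y : ℝ≥0∞) ≠ ⊤ := by
    intro y hy
    rw [SimpleGraph.mem_neighborFinset] at hy
    exact ENNReal.div_ne_top (green_ne_top a hG ha y)
      (by exact_mod_cast degree_ne_zero_of_adj hy.symm)
  rw [ENNReal.toReal_add (by split_ifs <;> simp) (ENNReal.sum_ne_top.2 h), ENNReal.toReal_sum h]
  congr 1
  · split_ifs <;> simp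
  · apply sum_congr rfl
    intro y _
    rw [ENNReal.toReal_div]; simp

variable (τ : RotorMechanism G)

/-- over a period of the walk in `D`, the occupation is at most the Green function. -/
lemma od_le_green (hG : G.Connected) [Infinite V] (ha : green G a a ≠ ⊤) (D : Finset V) (n : ℕ)
    (ρ : Config G) (hper : (sg τ a D)^[n] ρ = ρ) (x : V) :
    (od τ a D n ρ x : ℝ) ≤ n * (green G a x).toReal := by
  classical
  by_cases hxD : x ∈ D
  swap
  · rw [od_off τ a hG n ρ hxD]; push_cast; positivity
  set g : V → ℝ := fun x => (green G a x).toReal with hg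
  have hg0 : ∀ x, 0 ≤ g x := fun x => ENNReal.toReal_nonneg
  set v := od τ a D n ρ with hv
  have hdvd : ∀ y, G.degree y ∣ v y := by
    intro y
    rw [← next_pow_eq_iff τ y (ρ y)]
    have := congrFun hper y
    rwa [sg_iterate τ a hG] at this
  set ψ : V → ℝ := fun y => if y ∈ D then ((v y : ℝ) - n * g y) / G.degree y else 0 with hψ
  -- sub-mean inequality
  have hdeg : ∀ y, (0 : ℝ) < G.degree y := fun y => by exact_mod_cast degree_pos_of_nbr (ρ y)
  have hsub : ∀ y ∈ D, (G.degree y : ℝ) * ψ y ≤ ∑ z ∈ G.neighborFinset y, ψ z := by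
    intro y hy
    have h1 := od_eq τ a hG n ρ hy
    rw [← hv] at h1
    have h2 : (v y : ℝ) = (if y = a then (n : ℝ) else 0) +
        ∑ z ∈ G.neighborFinset y, (if z ∈ D then (v z : ℝ) / G.degree z else 0) := by
      rw [← h1]
      unfold bal
      push_cast
      congr 1
      rw [← sum_filter, ← sum_subset (s₁ := D.filter (fun z => z ∈ G.neighborFinset y))
        (filter_subset _ _)]
      · have : D.filter (fun z => z ∈ G.neighborFinset y) =
            (G.neighborFinset y).filter (fun z => z ∈ D) := by
          ext z; simp only [mem_filter]; tauto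
        rw [this]
        apply sum_congr rfl
        intro z hz
        rw [mem_filter, SimpleGraph.mem_neighborFinset] at hz
        rw [cnt_of_dvd τ z (ρ z) (v z) hz.1.symm (hdvd z)]
      · intro z hz hz'
        rw [mem_filter, SimpleGraph.mem_neighborFinset, not_and] at hz'
        rw [cnt_of_not_adj τ z (ρ z) (v z) (fun h => hz' hz h.symm)]
        simp
    have h3 := green_real_eq a hG ha y
    have h4 : (G.degree y : ℝ) * ψ y = (v y : ℝ) - n * g y := by
      simp only [hψ, hy, if_true]
      rw [mul_div_cancel₀ _ (hdeg y).ne']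
    rw [h4, h2]
    have h5 : (n : ℝ) * g y = (if y = a then (n : ℝ) else 0) +
        ∑ z ∈ G.neighborFinset y, n * (g z / G.degree z) := by
      simp only [hg]
      rw [h3, mul_add, mul_sum]
      simp
    rw [h5]
    have h6 : ∑ z ∈ G.neighborFinset y, (if z ∈ D then (v z : ℝ) / G.degree z else 0) -
        ∑ z ∈ G.neighborFinset y, n * (g z / G.degree z) ≤ ∑ z ∈ G.neighborFinset y, ψ z := by
      rw [← sum_sub_distrib]
      apply sum_le_sum
      intro z _
      simp only [hψ]
      split_ifs with hz
      · rw [sub_div, mul_div_assoc]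
      · have : 0 ≤ (n : ℝ) * (g z / G.degree z) := by have := hg0 z; positivity
        linarith
    linarith
  -- maximum principle
  obtain ⟨m, hmD, hm⟩ := exists_max_image D ψ ⟨x, hxD⟩
  have hM : ψ m ≤ 0 := by
    by_contra hpos
    push Not at hpos
    obtain ⟨y, hy, z, hz, hadj⟩ := exists_cut hG {y | y ∈ D ∧ ψ y = ψ m} ⟨m, hmD, rfl⟩ (by
      obtain ⟨z, hz⟩ := Infinite.exists_notMem_finset D
      exact ⟨z, fun h => hz h.1⟩)
    have hall : ∀ w, ψ w ≤ ψ m := by
      intro w
      by_cases hw : w ∈ D
      · exact hm w hw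
      · simp only [hψ, hw, if_false]; exact hpos.le
    have hzlt : ψ z < ψ m := by
      by_cases hzD : z ∈ D
      · exact lt_of_le_of_ne (hm z hzD) (fun h => hz ⟨hzD, h⟩)
      · have : ψ z = 0 := by simp only [hψ, hzD, if_false]
        rw [this]; exact hpos
    have h1 := hsub y hy.1
    have h2 : ∑ w ∈ G.neighborFinset y, ψ w < ∑ w ∈ G.neighborFinset y, ψ m :=
      sum_lt_sum (fun w _ => hall w) ⟨z, by simpa using hadj, hzlt⟩
    rw [sum_const, SimpleGraph.card_neighborFinset_eq_degree, nsmul_eq_mul, hy.2] at *
    linarith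
  have h1 := (hm x hxD).trans hM
  simp only [hψ, hxD, if_true] at h1
  rw [div_le_iff₀ (hdeg x)] at h1
  linarith

/-! ### lower bound -/

/-- truncated Green function -/
noncomputable def gT (G : SimpleGraph V) [G.LocallyFinite] (a : V) (T : ℕ) (x : V) : ℝ :=
  ∑ t ∈ range T, (srwProb G a t x).toReal

/-- error term -/
noncomputable def Kc (G : SimpleGraph V) [G.LocallyFinite] : ℕ → V → ℝ
  | 0, _ => 0
  | T + 1, x => ∑ y ∈ G.neighborFinset x, (Kc G T y / G.degree y + 1)

lemma Kc_nonneg (T : ℕ) (x : V) : 0 ≤ Kc G T x := by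
  induction T generalizing x with
  | zero => simp [Kc]
  | succ T ih =>
    simp only [Kc]
    apply sum_nonneg
    intro y _
    have := ih y
    positivity

open Classical in
lemma gT_succ (T : ℕ) (x : V) : gT G a (T + 1) x =
    (if x = a then 1 else 0) + ∑ y ∈ G.neighborFinset x, gT G a T y / G.degree y := by
  unfold gT
  rw [sum_range_succ', add_comm]
  congr 1
  · simp only [srwProb]; split_ifs <;> simp
  · simp only [sum_div]
    rw [sum_comm]
    apply sum_congr rfl
    intro t _
    simp only [srwProb]
    rw [ENNReal.toReal_sum]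
    · apply sum_congr rfl
      intro y _
      rw [ENNReal.toReal_div]; simp
    · intro y hy
      rw [SimpleGraph.mem_neighborFinset] at hy
      exact ENNReal.div_ne_top (srwProb_ne_top a t y)
        (by exact_mod_cast degree_ne_zero_of_adj hy.symm)

lemma srwProb_eq_zero (hG : G.Connected) (t : ℕ) (x : V) (h : t < G.dist a x) :
    srwProb G a t x = 0 := by
  classical
  induction t generalizing x with
  | zero =>
    simp only [srwProb]
    rw [if_neg]
    rintro rfl
    simp at h
  | succ t ih =>
    simp only [srwProb]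
    apply sum_eq_zero
    intro y hy
    rw [SimpleGraph.mem_neighborFinset] at hy
    have h1 : G.dist a x ≤ G.dist a y + G.dist y x := hG.dist_triangle
    rw [(SimpleGraph.dist_eq_one_iff_adj).2 hy.symm] at h1
    rw [ih y (by omega)]
    simp

lemma gT_eq_zero (hG : G.Connected) (T : ℕ) (x : V) (h : T ≤ G.dist a x) : gT G a T x = 0 := by
  unfold gT
  apply sum_eq_zero
  intro t ht
  rw [mem_range] at ht
  rw [srwProb_eq_zero a hG t x (by omega)]
  simp

lemma le_od (hG : G.Connected) [Infinite V] (T : ℕ) (D : Finset V)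
    (hD : ∀ z, G.dist a z < T → z ∈ D) (L : ℕ) (ρ : Config G) (x : V) (hx : x ∈ D) :
    L * gT G a T x - Kc G T x ≤ od τ a D L ρ x := by
  classical
  induction T generalizing x with
  | zero => simp [gT, Kc]
  | succ T ih =>
    have hD' : ∀ z, G.dist a z < T → z ∈ D := fun z hz => hD z (by omega)
    rw [← od_eq τ a hG L ρ hx]
    unfold bal
    push_cast
    rw [gT_succ]
    simp only [Kc]
    have h1 : ∑ y ∈ D, (cnt τ y (ρ y) (od τ a D L ρ y) x : ℝ) =
        ∑ y ∈ (G.neighborFinset x).filter (fun z => z ∈ D),
          (cnt τ y (ρ y) (od τ a D L ρ y) x : ℝ) := by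
      rw [← sum_subset (s₁ := D.filter (fun z => z ∈ G.neighborFinset x)) (filter_subset _ _)]
      · have : D.filter (fun z => z ∈ G.neighborFinset x) =
            (G.neighborFinset x).filter (fun z => z ∈ D) := by
          ext z; simp only [mem_filter]; tauto
        rw [this]
      · intro z hz hz'
        rw [mem_filter, SimpleGraph.mem_neighborFinset, not_and] at hz'
        rw [cnt_of_not_adj τ z (ρ z) _ (fun h => hz' hz h.symm)]
        simp
    rw [h1]
    have h2 : ∀ y ∈ G.neighborFinset x, L * (gT G a T y / G.degree y) -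
        (Kc G T y / G.degree y + 1) ≤
        if y ∈ D then (cnt τ y (ρ y) (od τ a D L ρ y) x : ℝ) else 0 := by
      intro y hy
      rw [SimpleGraph.mem_neighborFinset] at hy
      have hd : (0 : ℝ) < G.degree y := by exact_mod_cast degree_pos_of_nbr (ρ y)
      split_ifs with hyD
      · have h3 := ih hD' y hyD
        have h4 := le_cnt_real τ y (ρ y) (od τ a D L ρ y) hy.symm
        have h5 : (L * gT G a T y - Kc G T y) / G.degree y ≤
            (od τ a D L ρ y : ℝ) / G.degree y := by gcongr
        rw [sub_div, mul_div_assoc] at h5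
        linarith
      · have h3 : ¬ G.dist a y < T + 1 := fun h => hyD (hD y h)
        rw [gT_eq_zero a hG T y (by omega)]
        have := Kc_nonneg (G := G) T y
        have : 0 ≤ Kc G T y / G.degree y := by positivity
        simp; linarith
    have h3 := sum_le_sum h2
    rw [sum_sub_distrib, ← mul_sum, ← sum_filter] at h3
    have h4 : (L : ℝ) * (if x = a then (1 : ℝ) else 0) = if x = a then (L : ℝ) else 0 := by
      split_ifs <;> simp
    rw [mul_add, h4]
    linarith

lemma exists_gT (hG : G.Connected) (ha : green G a a ≠ ⊤) (x : V) {ε : ℝ} (hε : 0 < ε) :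
    ∃ T, (green G a x).toReal - ε ≤ gT G a T x := by
  have h1 : Tendsto (fun T : ℕ => gT G a T x) atTop (𝓝 (green G a x).toReal) := by
    have h2 : Tendsto (fun T : ℕ => ∑ t ∈ range T, srwProb G a t x) atTop (𝓝 (green G a x)) :=
      ENNReal.tendsto_nat_tsum _
    have h3 := (ENNReal.tendsto_toReal (green_ne_top a hG ha x)).comp h2
    refine h3.congr (fun T => ?_)
    simp only [Function.comp_apply, gT]
    rw [ENNReal.toReal_sum (fun t _ => srwProb_ne_top a t x)]
  have h2 := (tendsto_order.1 h1).1 ((green G a x).toReal - ε) (by linarith)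
  obtain ⟨T, hT⟩ := h2.exists
  exact ⟨T, hT.le⟩

/-! ### balls -/

lemma inner_finite (hG : G.Connected) (R : ℕ) : (inner G a R).Finite := by
  induction R with
  | zero => simp [inner]
  | succ R ih =>
    apply ((Set.finite_singleton a).union (ih.biUnion
      (t := fun y => G.neighborSet y) (fun y _ => Set.toFinite _))).subset
    intro x hx
    simp only [inner, Set.mem_ofPred_eq] at hx
    by_cases hxa : x = a
    · left; simp [hxa]
    · right
      obtain ⟨p, hp⟩ := hG.exists_walk_length_eq_dist x a
      cases p with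
      | nil => exact absurd rfl hxa
      | cons h q =>
        rename_i y
        rw [Set.mem_iUnion₂]
        refine ⟨y, ?_, h.symm⟩
        simp only [inner, Set.mem_ofPred_eq]
        rw [SimpleGraph.Walk.length_cons] at hp
        have := SimpleGraph.dist_le q
        rw [SimpleGraph.dist_comm] at hx
        rw [SimpleGraph.dist_comm]
        omega

/-- the finite set of vertices at distance less than `R` -/
noncomputable def ball (hG : G.Connected) (R : ℕ) : Finset V := (inner_finite a hG R).toFinset

lemma mem_ball (hG : G.Connected) (R : ℕ) (x : V) : x ∈ ball a hG R ↔ G.dist a x < R := by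
  simp [ball, inner]

lemma ball_mono (hG : G.Connected) {R S : ℕ} (h : R ≤ S) : ball a hG R ⊆ ball a hG S := by
  intro x; simp only [mem_ball]; omega

lemma countable_of_connected (hG : G.Connected) : Countable V := by
  have h : (Set.univ : Set V) ⊆ ⋃ R : ℕ, inner G (hG.nonempty.some) R := by
    intro x _
    rw [Set.mem_iUnion]
    exact ⟨G.dist hG.nonempty.some x + 1, by simp [inner]⟩
  rw [← Set.countable_univ_iff]
  exact (Set.countable_iUnion (fun R => (inner_finite _ hG R).countable)).mono h

end Pool.Agent.Lib.MP_42a48c_pr
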