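import Pool.Agent.Lib.MP_42a48c_pr.Acyclic
import Pool.Agent.Lib.MP_42a48c_pr.Green

/-!
# The density lemma and the frequency bound in finite balls
-/

open Finset Filter Topology
open scoped ENNReal

namespace Pool.Agent.Lib.MP_42a48c_pr

universe u

/-- The combinatorial lemma. `U i n` stands for `∑_{j ∈ [i, i+n)} u j`. -/
lemma density_lemma (u : ℕ → ℝ) (hu : ∀ i, 0 ≤ u i) {g ε c : ℝ} {L0 n0 N : ℕ} (hg : 0 ≤ g)
    (hε : 0 < ε) (hc : g < c)
    (hlow : ∀ i L, L0 ≤ L → (g - ε) * L ≤ ∑ j ∈ range L, u (i + j))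
    (hn0 : g * L0 ≤ ε * n0) (Bad : ℕ → Prop) [DecidablePred Bad]
    (hBad : ∀ i, Bad i → ∃ n, n0 ≤ n ∧ n ≤ N ∧ 1 ≤ n ∧ c * n ≤ ∑ j ∈ range n, u (i + j))
    (T : ℕ) : ∀ i, (g - 2 * ε) * T + (c - g) * (#{j ∈ range T | Bad (i + j)} : ℝ) -
      (g * L0 + (c - g) * N) ≤ ∑ j ∈ range T, u (i + j) := by
  induction T using Nat.strong_induction_on with
  | _ T ih =>
    intro i
    have hcg : 0 < c - g := by linarith
    -- the crude bound
    have hcrude : ∀ i L, (g - ε) * L - g * L0 ≤ ∑ j ∈ range L, u (i + j) := by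
      intro i L
      by_cases hL : L0 ≤ L
      · have := hlow i L hL
        have : 0 ≤ g * L0 := by positivity
        linarith
      · have h1 : (L : ℝ) ≤ L0 := by exact_mod_cast (not_le.1 hL).le
        have h2 : 0 ≤ ∑ j ∈ range L, u (i + j) := sum_nonneg (fun j _ => hu _)
        have h3 : g * L ≤ g * L0 := mul_le_mul_of_nonneg_left h1 hg
        have h4 : 0 ≤ ε * L := by positivity
        nlinarith
    by_cases hex : ∃ j, j < T ∧ Bad (i + j)
    · classical
      obtain ⟨hlT, hlB⟩ := Nat.find_spec hex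
      set l := Nat.find hex with hl
      have hmin : ∀ j, j < l → ¬ Bad (i + j) := by
        intro j hj hb
        exact Nat.find_min hex hj ⟨by omega, hb⟩
      obtain ⟨n, hn1, hn2, hn3, hn4⟩ := hBad _ hlB
      by_cases hTn : l + n ≤ T
      · have ih' := ih (T - (l + n)) (by omega) (i + (l + n))
        have hsplit : ∑ j ∈ range T, u (i + j) = ∑ j ∈ range l, u (i + j) +
            ∑ j ∈ range n, u (i + l + j) + ∑ j ∈ range (T - (l + n)), u (i + (l + n) + j) := by
          have h1 : T = l + n + (T - (l + n)) := by omega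
          conv_lhs => rw [h1, sum_range_add, sum_range_add]
          simp only [add_assoc]
        have hcount : #{j ∈ range T | Bad (i + j)} ≤
            n + #{j ∈ range (T - (l + n)) | Bad (i + (l + n) + j)} := by
          have h1 : (range T).filter (fun j => Bad (i + j)) ⊆
              (range n).image (fun j => l + j) ∪
              ((range (T - (l + n))).filter (fun j => Bad (i + (l + n) + j))).image
                (fun j => l + n + j) := by
            intro j hj
            rw [mem_filter, mem_range] at hj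
            rw [mem_union, mem_image, mem_image]
            by_cases h1 : j < l
            · exact absurd hj.2 (hmin j h1)
            · by_cases h2 : j < l + n
              · left; exact ⟨j - l, by rw [mem_range]; omega, by omega⟩
              · right
                refine ⟨j - (l + n), ?_, by omega⟩
                rw [mem_filter, mem_range]
                refine ⟨by omega, ?_⟩
                have : i + (l + n) + (j - (l + n)) = i + j := by omega
                rw [this]; exact hj.2
          refine (card_le_card h1).trans ((card_union_le _ _).trans ?_)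
          exact add_le_add (card_image_le.trans (by simp)) card_image_le
        rw [hsplit]
        have h2 := hcrude i l
        have h3 : (#{j ∈ range T | Bad (i + j)} : ℝ) ≤
            n + #{j ∈ range (T - (l + n)) | Bad (i + (l + n) + j)} := by exact_mod_cast hcount
        have h4 : ((T - (l + n) : ℕ) : ℝ) = T - (l + n) := by
          rw [Nat.cast_sub hTn]; push_cast; ring
        rw [h4] at ih'
        have h5 : (n0 : ℝ) ≤ n := by exact_mod_cast hn1
        have h6 : ε * n0 ≤ ε * n := mul_le_mul_of_nonneg_left h5 hε.le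
        have h7 : 0 ≤ ε * l := by positivity
        have h8 : (c - g) * (#{j ∈ range T | Bad (i + j)} : ℝ) ≤
            (c - g) * (n + #{j ∈ range (T - (l + n)) | Bad (i + (l + n) + j)}) :=
          mul_le_mul_of_nonneg_left h3 hcg.le
        have h9 : 0 ≤ ε * n := by positivity
        nlinarith
      · have hcount : #{j ∈ range T | Bad (i + j)} ≤ N := by
          have h1 : (range T).filter (fun j => Bad (i + j)) ⊆ (range n).image (fun j => l + j) := by
            intro j hj
            rw [mem_filter, mem_range] at hj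
            rw [mem_image]
            by_cases h1 : j < l
            · exact absurd hj.2 (hmin j h1)
            · exact ⟨j - l, by rw [mem_range]; omega, by omega⟩
          refine (card_le_card h1).trans (card_image_le.trans ?_)
          simpa using hn2
        have h2 := hcrude i T
        have h3 : (#{j ∈ range T | Bad (i + j)} : ℝ) ≤ N := by exact_mod_cast hcount
        have h8 : (c - g) * (#{j ∈ range T | Bad (i + j)} : ℝ) ≤ (c - g) * N :=
          mul_le_mul_of_nonneg_left h3 hcg.le
        have h9 : 0 ≤ ε * T := by positivity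
        nlinarith
    · push Not at hex
      have h0 : #{j ∈ range T | Bad (i + j)} = 0 := by
        rw [card_eq_zero, filter_eq_empty_iff]
        intro j hj
        exact hex j (mem_range.1 hj)
      rw [h0]
      have h2 := hcrude i T
      have h3 : 0 ≤ (c - g) * N := by positivity
      have h4 : 0 ≤ ε * T := by positivity
      push_cast
      nlinarith

/-- a self-map of a finite set which is injective has a period. -/
lemma exists_period {α : Type*} (F : Set α) (hF : F.Finite) (f : α → α) (hmap : Set.MapsTo f F F)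
    (hinj : Set.InjOn f F) : ∃ K, 0 < K ∧ ∀ x ∈ F, f^[K] x = x := by
  classical
  have : Finite F := hF
  let e : F → F := hmap.restrict f F F
  have he : Function.Injective e := by
    intro x y h
    apply Subtype.ext
    exact hinj x.2 y.2 (congrArg Subtype.val h)
  let p : Equiv.Perm F := Equiv.ofBijective e ((Finite.injective_iff_bijective).1 he)
  have hp : ∀ k (x : F), ((p ^ k) x : α) = f^[k] x := by
    intro k
    induction k with
    | zero => intro x; simp
    | succ k ih =>
      intro x
      rw [pow_succ, Equiv.Perm.mul_apply, ih, Function.iterate_succ_apply]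
      rfl
  have : Finite (Equiv.Perm F) := inferInstance
  refine ⟨orderOf p, orderOf_pos p, fun x hx => ?_⟩
  have := hp (orderOf p) ⟨x, hx⟩
  rw [pow_orderOf_eq_one] at this
  simpa using this.symm

variable {V : Type u} {G : SimpleGraph V} [G.LocallyFinite] (τ : RotorMechanism G) (a : V)

omit [G.LocallyFinite] in
lemma acycSet_finite [G.LocallyFinite] (D : Finset V) (ρ0 : Config G) :
    {ρ : Config G | Acyc D ρ ∧ ∀ x ∉ D, ρ x = ρ0 x}.Finite := by
  classical
  apply Set.Finite.of_injOn (f := fun ρ : Config G => fun x : D => ρ x)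
    (t := (Set.univ : Set (∀ x : D, G.neighborSet (x : V)))) (fun _ _ => Set.mem_univ _) ?_
    Set.finite_univ
  intro ρ hρ ρ' hρ' h
  funext x
  by_cases hx : x ∈ D
  · exact congrFun h ⟨x, hx⟩
  · rw [hρ.2 x hx, hρ'.2 x hx]

/-- the bad event in `D` -/
def BadC (D : Finset V) (x : V) (c : ℝ) (n0 N : ℕ) (ρ : Config G) : Prop :=
  ∃ n, n0 ≤ n ∧ n ≤ N ∧ 1 ≤ n ∧ c * n ≤ od τ a D n ρ x

lemma freq_bound (hG : G.Connected) [Infinite V] (ha : green G a a ≠ ⊤) (D : Finset V)
    (ρ0 : Config G) (x : V) (hx : x ∈ D) {ε c : ℝ} {T0 L0 n0 N : ℕ}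
    (hD : ∀ z, G.dist a z < T0 → z ∈ D) (hε : 0 < ε) (hc : (green G a x).toReal < c)
    (hT0 : (green G a x).toReal - ε / 2 ≤ gT G a T0 x)
    (hL0 : 2 * Kc G T0 x ≤ ε * L0)
    (hn0 : (green G a x).toReal * L0 ≤ ε * n0) :
    (c - (green G a x).toReal) *
      (({ρ : Config G | (Acyc D ρ ∧ ∀ x ∉ D, ρ x = ρ0 x) ∧ BadC τ a D x c n0 N ρ}.ncard : ℕ) : ℝ) ≤
    2 * ε * (({ρ : Config G | Acyc D ρ ∧ ∀ x ∉ D, ρ x = ρ0 x}.ncard : ℕ) : ℝ) := by
  classical
  set g := (green G a x).toReal with hg
  have hg0 : 0 ≤ g := ENNReal.toReal_nonneg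
  set F : Set (Config G) := {ρ : Config G | Acyc D ρ ∧ ∀ x ∉ D, ρ x = ρ0 x} with hF
  have hFfin : F.Finite := acycSet_finite D ρ0
  set s := sg τ a D with hs
  have hmap : Set.MapsTo s F F := by
    intro ρ hρ
    exact ⟨sg_acyc τ a hG hρ.1, fun y hy => by rw [hs, sg_off τ a hG ρ hy]; exact hρ.2 y hy⟩
  have hinj : Set.InjOn s F := fun ρ hρ ρ' hρ' h => sg_inj τ a hG hρ.1 hρ'.1 h
  obtain ⟨K, hK, hper⟩ := exists_period F hFfin s hmap hinj
  set Ff : Finset (Config G) := hFfin.toFinset with hFf
  have hmemFf : ∀ ρ, ρ ∈ Ff ↔ ρ ∈ F := fun ρ => by rw [hFf, Set.Finite.mem_toFinset]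
  -- iterates permute F
  have hiter : ∀ i, Set.MapsTo s^[i] F F ∧ Set.InjOn s^[i] F := by
    intro i
    induction i with
    | zero => exact ⟨fun ρ hρ => hρ, fun ρ _ ρ' _ h => h⟩
    | succ i ih =>
      rw [Function.iterate_succ]
      exact ⟨ih.1.comp hmap, ih.2.comp hinj hmap⟩
  have hcardi : ∀ i, #{ρ ∈ Ff | BadC τ a D x c n0 N (s^[i] ρ)} = #{ρ ∈ Ff | BadC τ a D x c n0 N ρ} := by
    intro i
    have himg : Ff.image s^[i] = Ff := by
      apply eq_of_subset_of_card_le
      · intro ρ hρ
        rw [mem_image] at hρ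
        obtain ⟨ρ', hρ', rfl⟩ := hρ
        rw [hmemFf] at hρ' ⊢
        exact (hiter i).1 hρ'
      · rw [card_image_of_injOn]
        intro ρ hρ ρ' hρ' h
        exact (hiter i).2 ((hmemFf ρ).1 hρ) ((hmemFf ρ').1 hρ') h
    conv_rhs => rw [← himg, filter_image]
    rw [card_image_of_injOn]
    intro ρ hρ ρ' hρ' h
    have h1 := (mem_filter.1 hρ).1
    have h2 := (mem_filter.1 hρ').1
    exact (hiter i).2 ((hmemFf ρ).1 h1) ((hmemFf ρ').1 h2) h
  -- pointwise bound from the density lemma
  have hpt : ∀ m : ℕ, ∀ ρ ∈ Ff, (c - g) * (#{j ∈ range (m * K) | BadC τ a D x c n0 N (s^[j] ρ)} : ℝ) ≤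
      2 * ε * (m * K) + (g * L0 + (c - g) * N) := by
    intro m ρ hρ
    rw [hmemFf] at hρ
    have hsum : ∀ i n, ∑ j ∈ range n, (od τ a D 1 (s^[i + j] ρ) x : ℝ) =
        od τ a D n (s^[i] ρ) x := by
      intro i n
      rw [od_eq_sum τ a hG D n (s^[i] ρ) x]
      push_cast
      apply sum_congr rfl
      intro j _
      rw [add_comm, Function.iterate_add_apply]
    have h1 := density_lemma (fun i => (od τ a D 1 (s^[i] ρ) x : ℝ)) (fun i => by positivity)
      (g := g) (ε := ε) (c := c) (L0 := L0) (n0 := n0) (N := N) hg0 hε hc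
      (by
        intro i L hL
        rw [hsum]
        have h2 := le_od a τ hG T0 D hD L (s^[i] ρ) x hx
        have h3 : (L : ℝ) * (g - ε / 2) ≤ L * gT G a T0 x :=
          mul_le_mul_of_nonneg_left hT0 (by positivity)
        have h4 : (L0 : ℝ) ≤ L := by exact_mod_cast hL
        have h5 : ε * L0 ≤ ε * L := mul_le_mul_of_nonneg_left h4 hε.le
        linarith)
      hn0 (fun i => BadC τ a D x c n0 N (s^[i] ρ))
      (by
        rintro i ⟨n, hn1, hn2, hn3, hn4⟩
        refine ⟨n, hn1, hn2, hn3, ?_⟩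
        rw [hsum]
        exact hn4)
      (m * K) 0
    rw [hsum 0 (m * K)] at h1
    have hperm : s^[m * K] ρ = ρ := by
      rw [mul_comm, Function.iterate_mul]
      have : ∀ m : ℕ, (s^[K])^[m] ρ = ρ := by
        intro m
        induction m with
        | zero => rfl
        | succ m ih => rw [Function.iterate_succ_apply, hper ρ hρ, ih]
      exact this m
    have h2 := od_le_green a τ hG ha D (m * K) ρ hperm x
    simp only [Function.iterate_zero, id_eq, zero_add] at h1
    push_cast at h1 h2
    have h3 : (m : ℝ) * K * (green G a x).toReal = g * (m * K) := by rw [← hg]; ring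
    rw [h3] at h2
    linarith
  -- sum over F
  have hsumF : ∀ m : ℕ, (c - g) * (m * K * (#{ρ ∈ Ff | BadC τ a D x c n0 N ρ} : ℝ)) ≤
      (2 * ε * (m * K) + (g * L0 + (c - g) * N)) * #Ff := by
    intro m
    have h1 := sum_le_sum (hpt m)
    rw [sum_const, nsmul_eq_mul, ← mul_sum] at h1
    have h2 : ∑ ρ ∈ Ff, (#{j ∈ range (m * K) | BadC τ a D x c n0 N (s^[j] ρ)} : ℝ) =
        m * K * (#{ρ ∈ Ff | BadC τ a D x c n0 N ρ} : ℝ) := by
      have h3 : ∑ ρ ∈ Ff, #{j ∈ range (m * K) | BadC τ a D x c n0 N (s^[j] ρ)} =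
          m * K * #{ρ ∈ Ff | BadC τ a D x c n0 N ρ} := by
        simp only [card_filter]
        rw [sum_comm]
        simp only [← card_filter]
        simp only [hcardi]
        rw [sum_const, card_range, smul_eq_mul]
      exact_mod_cast h3
    rw [h2] at h1
    linarith
  -- let m → ∞
  have hlim : (c - g) * (K * (#{ρ ∈ Ff | BadC τ a D x c n0 N ρ} : ℝ)) ≤ 2 * ε * K * #Ff := by
    by_contra hcon
    push Not at hcon
    set A := (c - g) * (K * (#{ρ ∈ Ff | BadC τ a D x c n0 N ρ} : ℝ)) - 2 * ε * K * #Ff with hA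
    have hApos : 0 < A := by linarith
    obtain ⟨m, hm⟩ := exists_nat_gt (((g * L0 + (c - g) * N) * #Ff) / A)
    rw [div_lt_iff₀ hApos] at hm
    have := hsumF m
    rw [hA] at hm
    nlinarith
  have hKr : (0 : ℝ) < K := by exact_mod_cast hK
  have hfin : (c - g) * (#{ρ ∈ Ff | BadC τ a D x c n0 N ρ} : ℝ) ≤ 2 * ε * #Ff := by
    have h1 : ((c - g) * (#{ρ ∈ Ff | BadC τ a D x c n0 N ρ} : ℝ)) * K ≤ (2 * ε * #Ff) * K := by
      linarith
    exact le_of_mul_le_mul_right h1 hKr
  have hc1 : {ρ : Config G | (Acyc D ρ ∧ ∀ x ∉ D, ρ x = ρ0 x) ∧ BadC τ a D x c n0 N ρ}.ncard =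
      #{ρ ∈ Ff | BadC τ a D x c n0 N ρ} := by
    rw [← Set.ncard_coe_finset]
    congr 1
    ext ρ
    simp only [coe_filter, Set.mem_ofPred_eq, hmemFf]
    rfl
  have hc2 : F.ncard = #Ff := by
    rw [Set.ncard_eq_toFinset_card F hFfin]
  rw [hc1, hc2]
  exact hfin

end Pool.Agent.Lib.MP_42a48c_pr
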