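import Pool.Agent.Lib.MP_42a48c_pr.Green

/-!
# The actual walks are dominated by the solutions
-/

open Finset Filter Topology
open scoped ENNReal

namespace Pool.Agent.Lib.MP_42a48c_pr

universe u

variable {V : Type u} {G : SimpleGraph V} (τ : RotorMechanism G) (a : V)

open Classical in
/-- number of visits to `x` before time `t` -/
noncomputable def uv (ρ : Config G) (t : ℕ) (x : V) : ℕ :=
  #{s ∈ range t | (walk τ a ρ s).1 = x}

lemma uv_zero (ρ : Config G) (x : V) : uv τ a ρ 0 x = 0 := by simp [uv]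

open Classical in
lemma uv_succ (ρ : Config G) (t : ℕ) (x : V) :
    uv τ a ρ (t + 1) x = uv τ a ρ t x + if (walk τ a ρ t).1 = x then 1 else 0 := by
  unfold uv
  rw [range_add_one, filter_insert]
  split_ifs with h
  · rw [card_insert_of_notMem (by simp)]
  · rfl

lemma walk_succ (ρ : Config G) (t : ℕ) : walk τ a ρ (t + 1) = step τ (walk τ a ρ t) := by
  unfold walk
  rw [Function.iterate_succ_apply']

lemma walk_snd (ρ : Config G) (t : ℕ) (x : V) :
    (walk τ a ρ t).2 x = ((τ.next x) ^ (uv τ a ρ t x)) (ρ x) := by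
  classical
  induction t with
  | zero => simp [uv_zero, walk]
  | succ t ih =>
    rw [walk_succ, uv_succ]
    simp only [step]
    by_cases h : x = (walk τ a ρ t).1
    · subst h
      rw [Function.update_self, ih]
      simp only [if_true]
      rw [pow_succ', Equiv.Perm.mul_apply]
    · rw [Function.update_of_ne h, ih, if_neg (Ne.symm h), add_zero]

lemma walk_fst_succ (ρ : Config G) (t : ℕ) :
    (walk τ a ρ (t + 1)).1 = ((τ.next (walk τ a ρ t).1) ^
      (uv τ a ρ t (walk τ a ρ t).1 + 1)) (ρ (walk τ a ρ t).1) := by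
  rw [walk_succ, pow_succ', Equiv.Perm.mul_apply, ← walk_snd]
  rfl

variable [G.LocallyFinite]

open Classical in
/-- conservation: arrivals at `x` -/
lemma arrivals (ρ : Config G) (t : ℕ) (x : V) :
    (if x = a then 1 else 0) + ∑ y ∈ G.neighborFinset x, cnt τ y (ρ y) (uv τ a ρ t y) x =
      uv τ a ρ t x + if (walk τ a ρ t).1 = x then 1 else 0 := by
  induction t with
  | zero =>
    simp only [uv_zero, cnt_zero, sum_const_zero, walk, Function.iterate_zero, id_eq, zero_add,
      add_zero]
    by_cases h : x = a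
    · subst h; simp
    · rw [if_neg h, if_neg (Ne.symm h)]
  | succ t ih =>
    set z := (walk τ a ρ t).1 with hz
    have h1 : ∑ y ∈ G.neighborFinset x, cnt τ y (ρ y) (uv τ a ρ (t + 1) y) x =
        ∑ y ∈ G.neighborFinset x, cnt τ y (ρ y) (uv τ a ρ t y) x +
        if (walk τ a ρ (t + 1)).1 = x then 1 else 0 := by
      have h2 : ∀ y ∈ G.neighborFinset x, cnt τ y (ρ y) (uv τ a ρ (t + 1) y) x =
          cnt τ y (ρ y) (uv τ a ρ t y) x +
          (if y = z ∧ (walk τ a ρ (t + 1)).1 = x then 1 else 0) := by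
        intro y _
        rw [uv_succ]
        by_cases hy : y = z
        · rw [if_pos (by rw [hy])]
          rw [cnt_succ]
          congr 1
          subst hy
          rw [walk_fst_succ, ← hz]
          simp
        · rw [if_neg (fun h => hy h.symm), add_zero]
          simp [hy]
      rw [sum_congr rfl h2, sum_add_distrib]
      congr 1
      by_cases hx : (walk τ a ρ (t + 1)).1 = x
      · rw [if_pos hx]
        have hzx : z ∈ G.neighborFinset x := by
          rw [SimpleGraph.mem_neighborFinset]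
          have := ((τ.next z ^ (uv τ a ρ t z + 1)) (ρ z)).2
          rw [SimpleGraph.mem_neighborSet] at this
          rw [← hx, walk_fst_succ, ← hz]
          exact this.symm
        have h3 : ∀ y ∈ G.neighborFinset x,
            (if y = z ∧ (walk τ a ρ (t + 1)).1 = x then 1 else 0) = if y = z then 1 else 0 := by
          intro y _; simp [hx]
        rw [sum_congr rfl h3, sum_ite_eq' _ z]
        simp [hzx]
      · simp [hx]
    rw [h1, uv_succ, ← add_assoc, ih]

open Classical in
/-- global solutions -/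
def GSol (n : ℕ) (ρ : Config G) (v : V → ℕ) : Prop :=
  ∀ x, (if x = a then n else 0) + ∑ y ∈ G.neighborFinset x, cnt τ y (ρ y) (v y) x ≤ v x

variable {τ a}

lemma GSol.uv_le {ρ : Config G} {v : V → ℕ} (h : GSol τ a 1 ρ v) (t : ℕ) (x : V) :
    uv τ a ρ t x ≤ v x := by
  classical
  induction t generalizing x with
  | zero => simp [uv_zero]
  | succ t ih =>
    rw [uv_succ]
    split_ifs with hx
    · have h1 := arrivals τ a ρ t x
      rw [if_pos hx] at h1
      rw [← h1]
      refine le_trans ?_ (h x)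
      gcongr with y _
      exact cnt_mono τ y (ρ y) (ih y) x
    · simpa using ih x

lemma GSol.transient {ρ : Config G} {v : V → ℕ} (h : GSol τ a 1 ρ v) : Transient τ a ρ := by
  classical
  intro x
  by_contra hinf
  obtain ⟨s, hs, hcard⟩ := Set.Infinite.exists_subset_card_eq hinf (v x + 1)
  have h1 : s ⊆ (range (s.sup id + 1)).filter (fun t => (walk τ a ρ t).1 = x) := by
    intro t ht
    rw [mem_filter, mem_range]
    exact ⟨Nat.lt_succ_of_le (le_sup (f := id) ht), hs ht⟩
  have h2 := card_le_card h1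
  have h3 := h.uv_le (s.sup id + 1) x
  unfold uv at h3
  omega

omit [G.LocallyFinite] in
lemma eventually_uv {ρ : Config G} (h : Transient τ a ρ) (x : V) :
    ∀ᶠ t in atTop, uv τ a ρ t x = {t : ℕ | (walk τ a ρ t).1 = x}.ncard ∧ (walk τ a ρ t).1 ≠ x := by
  classical
  obtain ⟨N, hN⟩ := (h x).bddAbove
  filter_upwards [eventually_gt_atTop N] with t ht
  constructor
  · unfold uv
    rw [← Set.ncard_coe_finset]
    congr 1
    ext s
    simp only [coe_filter, mem_range, Set.mem_ofPred_eq, and_iff_right_iff_imp]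
    intro hs
    have : s ≤ N := hN hs
    omega
  · intro hx
    have : t ≤ N := hN hx
    omega

omit [G.LocallyFinite] in
lemma final_eq {ρ : Config G} (h : Transient τ a ρ) (x : V) :
    final τ a ρ x = ((τ.next x) ^ ({t : ℕ | (walk τ a ρ t).1 = x}.ncard)) (ρ x) := by
  classical
  have h1 : ∀ᶠ t in atTop, (walk τ a ρ t).2 x =
      ((τ.next x) ^ ({t : ℕ | (walk τ a ρ t).1 = x}.ncard)) (ρ x) := by
    filter_upwards [eventually_uv h x] with t ht
    rw [walk_snd, ht.1]
  have hex : ∃ c : G.neighborSet x, ∀ᶠ t : ℕ in atTop, (walk τ a ρ t).2 x = c := ⟨_, h1⟩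
  unfold final
  rw [dif_pos hex]
  obtain ⟨t, ht1, ht2⟩ := (hex.choose_spec.and h1).exists
  rw [← ht1, ht2]

lemma balance_final {ρ : Config G} (h : Transient τ a ρ) (x : V)
    [Decidable (x = a)] :
    (if x = a then 1 else 0) + ∑ y ∈ G.neighborFinset x,
      cnt τ y (ρ y) ({t : ℕ | (walk τ a ρ t).1 = y}.ncard) x =
      {t : ℕ | (walk τ a ρ t).1 = x}.ncard := by
  classical
  have h1 : ∀ᶠ t in atTop, ∀ y ∈ G.neighborFinset x,
      uv τ a ρ t y = {t : ℕ | (walk τ a ρ t).1 = y}.ncard := by
    rw [eventually_all_finset]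
    intro y _
    filter_upwards [eventually_uv h y] with t ht using ht.1
  obtain ⟨t, ht1, ht2⟩ := (h1.and (eventually_uv h x)).exists
  have h2 := arrivals τ a ρ t x
  rw [if_neg ht2.2, add_zero, ht2.1] at h2
  rw [← h2]
  congr 1
  · split_ifs <;> rfl
  · exact sum_congr rfl (fun y hy => by rw [ht1 y hy])

/-- `n` successive walks are dominated by any `n`-solution -/
lemma GSol.walks {n : ℕ} {ρ : Config G} {v : V → ℕ} (h : GSol τ a n ρ v) :
    (∀ i < n, Transient τ a ((final τ a)^[i] ρ)) ∧
      ∀ x, ∑ i ∈ range n, visits τ a ((final τ a)^[i] ρ) x ≤ v x := by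
  classical
  induction n generalizing ρ v with
  | zero => simp
  | succ n ih =>
    have h1 : GSol τ a 1 ρ v := by
      intro x
      refine le_trans ?_ (h x)
      split_ifs <;> omega
    have htr := h1.transient
    set U : V → ℕ := fun x => {t : ℕ | (walk τ a ρ t).1 = x}.ncard with hU
    have hUv : ∀ x, U x ≤ v x := by
      intro x
      obtain ⟨t, ht⟩ := (eventually_uv htr x).exists
      simp only [hU]
      rw [← ht.1]
      exact h1.uv_le t x
    have h2 : GSol τ a n (final τ a ρ) (fun x => v x - U x) := by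
      intro x
      have h3 := h x
      have h4 := balance_final htr x
      have h5 : ∑ y ∈ G.neighborFinset x, cnt τ y (ρ y) (v y) x =
          ∑ y ∈ G.neighborFinset x, cnt τ y (ρ y) (U y) x +
          ∑ y ∈ G.neighborFinset x, cnt τ y (final τ a ρ y) (v y - U y) x := by
        rw [← sum_add_distrib]
        apply sum_congr rfl
        intro y _
        rw [final_eq htr y]
        exact cnt_sub τ y (ρ y) (hUv y) x
      have h6 := hUv x
      have h7 : ∑ y ∈ G.neighborFinset x, cnt τ y (ρ y) (U y) x =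
        ∑ y ∈ G.neighborFinset x, cnt τ y (ρ y) ({t : ℕ | (walk τ a ρ t).1 = y}.ncard) x := rfl
      have h8 : U x = {t : ℕ | (walk τ a ρ t).1 = x}.ncard := rfl
      dsimp only
      split_ifs at * <;> omega
    obtain ⟨ih1, ih2⟩ := ih h2
    constructor
    · intro i hi
      cases i with
      | zero => exact htr
      | succ i =>
        rw [Function.iterate_succ_apply]
        exact ih1 i (by omega)
    · intro x
      rw [sum_range_succ']
      simp only [Function.iterate_succ_apply, Function.iterate_zero, id_eq]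
      have h3 := ih2 x
      have h4 : visits τ a ρ x = (U x : ℕ∞) := by
        unfold visits
        simp only [hU]
        rw [Set.Finite.cast_ncard_eq (htr x)]
      rw [h4]
      have h5 : ((v x : ℕ) : ℕ∞) = ((v x - U x : ℕ) : ℕ∞) + (U x : ℕ∞) := by
        rw [← Nat.cast_add, Nat.sub_add_cancel (hUv x)]
      rw [h5]
      exact add_le_add_left h3 _

lemma GSol.occ_le {n : ℕ} {ρ : Config G} {v : V → ℕ} (h : GSol τ a n ρ v) (x : V) :
    occ τ a n ρ x ≤ (v x : ℝ≥0∞) := by
  classical
  obtain ⟨h1, h2⟩ := h.walks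
  unfold occ
  rw [if_pos h1]
  have h3 := h2 x
  have h4 : (((∑ i ∈ range n, visits τ a ((final τ a)^[i] ρ) x : ℕ∞)) : ℝ≥0∞) ≤
      (((v x : ℕ) : ℕ∞) : ℝ≥0∞) := ENat.toENNReal_mono h3
  have h5 : (((v x : ℕ) : ℕ∞) : ℝ≥0∞) = ((v x : ℕ) : ℝ≥0∞) := ENat.toENNReal_coe _
  rw [h5] at h4
  refine le_trans (le_of_eq ?_) h4
  exact (map_sum ENat.toENNRealRingHom _ _).symm

variable (τ a)

/-- if the minimal solutions on balls are bounded at `x`, the occupation number at `x` is bounded
by one of them. -/
lemma occ_le_od (hG : G.Connected) [Infinite V] (n : ℕ) (ρ : Config G) (x : V)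
    (hb : ∃ C, ∀ M, od τ a (ball a hG M) n ρ x ≤ C) :
    ∃ M, occ τ a n ρ x ≤ (od τ a (ball a hG M) n ρ x : ℝ≥0∞) := by
  classical
  -- propagation
  have hall : ∀ y, ∃ C, ∀ M, od τ a (ball a hG M) n ρ y ≤ C := by
    by_contra hcon
    push Not at hcon
    obtain ⟨y0, hy0⟩ := hcon
    obtain ⟨z, hz, y, hy, hadj⟩ := exists_cut hG {y | ∃ C, ∀ M, od τ a (ball a hG M) n ρ y ≤ C}
      ⟨x, hb⟩ ⟨y0, by simpa using hy0⟩
    apply hy
    obtain ⟨C, hC⟩ := hz
    refine ⟨G.degree y * (C + 1), fun M => ?_⟩
    set M' := max M (max (G.dist a z) (G.dist a y) + 1) with hM'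
    have hzD : z ∈ ball a hG M' := by rw [mem_ball]; omega
    have hyD : y ∈ ball a hG M' := by rw [mem_ball]; omega
    have hMM' : M ≤ M' := le_max_left M _
    refine (od_mono_D τ a hG (ball_mono a hG hMM') n ρ y).trans ?_
    apply le_mul_of_cnt_le τ y (ρ y) _ hadj.symm (x := z)
    refine le_trans ?_ (hC M')
    conv_rhs => rw [← od_eq τ a hG n ρ hzD]
    have hs : cnt τ y (ρ y) (od τ a (ball a hG M') n ρ y) z ≤
        ∑ w ∈ ball a hG M', cnt τ w (ρ w) (od τ a (ball a hG M') n ρ w) z :=
      single_le_sum (f := fun w => cnt τ w (ρ w) (od τ a (ball a hG M') n ρ w) z)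
        (fun _ _ => Nat.zero_le _) hyD
    unfold bal
    omega
  -- the stable value
  have hst : ∀ y, ∃ M0, ∀ M, M0 ≤ M →
      od τ a (ball a hG M) n ρ y = od τ a (ball a hG M0) n ρ y := by
    intro y
    obtain ⟨C, hC⟩ := hall y
    have hmono : Monotone (fun M => od τ a (ball a hG M) n ρ y) := fun M M' h =>
      od_mono_D τ a hG (ball_mono a hG h) n ρ y
    have hfin : (Set.range (fun M => od τ a (ball a hG M) n ρ y)).Finite :=
      (Set.finite_Iic C).subset (by rintro _ ⟨M, rfl⟩; exact hC M)
    obtain ⟨m, ⟨M0, hM0⟩, hm⟩ := hfin.exists_maximalFor id _ ⟨_, Set.mem_range_self 0⟩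
    refine ⟨M0, fun M hM => ?_⟩
    apply le_antisymm _ (hmono hM)
    have h1 := hm (Set.mem_range_self M)
    simp only [id_eq] at h1
    dsimp only at hM0 ⊢
    rw [hM0]
    have h2 : m ≤ od τ a (ball a hG M) n ρ y := by rw [← hM0]; exact hmono hM
    exact h1 h2
  choose M0 hM0 using hst
  set v : V → ℕ := fun y => od τ a (ball a hG (M0 y)) n ρ y with hv
  have hsol : GSol τ a n ρ v := by
    intro y
    set M := (insert y (G.neighborFinset y)).sup (fun z => max (M0 z) (G.dist a z + 1)) with hM
    have hle : ∀ z ∈ insert y (G.neighborFinset y), M0 z ≤ M ∧ z ∈ ball a hG M := by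
      intro z hz
      have h1 : max (M0 z) (G.dist a z + 1) ≤ M :=
        le_sup (f := fun z => max (M0 z) (G.dist a z + 1)) hz
      exact ⟨(le_max_left _ _).trans h1, by rw [mem_ball]; omega⟩
    have hvM : ∀ z ∈ insert y (G.neighborFinset y), v z = od τ a (ball a hG M) n ρ z := by
      intro z hz
      exact (hM0 z M (hle z hz).1).symm
    have h1 := od_isSol τ a hG (ball a hG M) n ρ y (hle y (mem_insert_self _ _)).2
    rw [hvM y (mem_insert_self _ _)]
    refine le_trans ?_ h1
    unfold bal
    gcongr ?_ + ?_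
    · split_ifs <;> simp
    · calc ∑ z ∈ G.neighborFinset y, cnt τ z (ρ z) (v z) y
          = ∑ z ∈ G.neighborFinset y, cnt τ z (ρ z) (od τ a (ball a hG M) n ρ z) y := by
            apply sum_congr rfl
            intro z hz
            rw [hvM z (mem_insert_of_mem hz)]
        _ ≤ _ := sum_le_sum_of_subset (fun z hz => (hle z (mem_insert_of_mem hz)).2)
  exact ⟨M0 x, hsol.occ_le x⟩

end Pool.Agent.Lib.MP_42a48c_pr
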