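import Pool.Agent.Lib.MP_42a48c_pr.Freq
import Pool.Agent.Lib.MP_42a48c_pr.Walk

/-!
# Passing to the weak limit
-/

open Finset Filter Topology MeasureTheory
open scoped ENNReal NNReal

namespace Pool.Agent.Lib.MP_42a48c_pr

universe u

variable {V : Type u} {G : SimpleGraph V} (a : V)

open Classical in
/-- extension of a forest by `ρ0` -/
noncomputable def ext (R : ℕ) (ρ0 : Config G) (f : ∀ x : inner G a R, G.neighborSet (x : V)) :
    Config G := fun x => if h : x ∈ inner G a R then f ⟨x, h⟩ else ρ0 x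

lemma ext_of_mem {R : ℕ} (ρ0 : Config G) (f : ∀ x : inner G a R, G.neighborSet (x : V)) {x : V}
    (h : x ∈ inner G a R) : ext a R ρ0 f x = f ⟨x, h⟩ := by
  unfold ext; rw [dif_pos h]

lemma ext_of_notMem {R : ℕ} (ρ0 : Config G) (f : ∀ x : inner G a R, G.neighborSet (x : V)) {x : V}
    (h : x ∉ inner G a R) : ext a R ρ0 f x = ρ0 x := by
  unfold ext; rw [dif_neg h]

lemma ext_inj (R : ℕ) (ρ0 : Config G) : Function.Injective (ext a R ρ0) := by
  intro f f' h
  funext x
  have := congrFun h x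
  rwa [ext_of_mem a ρ0 f x.2, ext_of_mem a ρ0 f' x.2] at this

variable [G.LocallyFinite]

lemma isForest_iff (hG : G.Connected) (R : ℕ) (ρ0 : Config G)
    (f : ∀ x : inner G a R, G.neighborSet (x : V)) :
    IsForest G a R f ↔ Acyc (ball a hG R) (ext a R ρ0 f) := by
  classical
  have hmem : ∀ x, x ∈ ball a hG R ↔ x ∈ inner G a R := fun x => by
    rw [mem_ball]; rfl
  constructor
  · intro hf
    by_contra hcon
    unfold Acyc at hcon
    push Not at hcon
    obtain ⟨C, hC, ⟨x0, hx0⟩, hcl⟩ := hcon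
    apply hf
    set e := ext a R ρ0 f with he
    -- iterate
    let s : ℕ → C := fun k => (fun x : C => (⟨(e x : V), hcl x x.2⟩ : C))^[k] ⟨x0, hx0⟩
    have hs : ∀ k, (s (k + 1) : V) = e (s k : V) := by
      intro k
      simp only [s]
      rw [Function.iterate_succ_apply']
    obtain ⟨i, j, hij, hsij⟩ := Finite.exists_ne_map_eq_of_infinite s
    wlog hlt : i < j generalizing i j
    · exact this j i hij.symm hsij.symm (lt_of_le_of_ne (not_lt.1 hlt) hij.symm)
    refine ⟨j - i, fun k => ⟨(s (i + k) : V), (hmem _).1 (hC (s (i + k)).2)⟩, by omega, ?_, ?_⟩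
    · intro k _
      have h1 := hs (i + k)
      rw [he, ext_of_mem a ρ0 f ((hmem _).1 (hC (s (i + k)).2))] at h1
      rw [← h1]
      rfl
    · apply Subtype.ext
      have : i + (j - i) = j := by omega
      simp only [this, add_zero]
      rw [← hsij]
  · intro h ⟨k, c, hk, hc, hk0⟩
    obtain ⟨x, hx, hx'⟩ := h ((range k).image (fun i => (c i : V))) (by
      intro x hx
      rw [mem_image] at hx
      obtain ⟨i, _, rfl⟩ := hx
      exact (hmem _).2 (c i).2) ⟨(c 0 : V), mem_image.2 ⟨0, mem_range.2 hk, rfl⟩⟩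
    apply hx'
    rw [mem_image] at hx
    obtain ⟨i, hi, rfl⟩ := hx
    rw [mem_range] at hi
    rw [ext_of_mem a ρ0 f (c i).2]
    have h1 := hc i hi
    have h2 : (f ⟨(c i : V), (c i).2⟩ : V) = (c (i + 1) : V) := h1
    rw [h2, mem_image]
    by_cases hik : i + 1 < k
    · exact ⟨i + 1, mem_range.2 hik, rfl⟩
    · have : i + 1 = k := by omega
      refine ⟨0, mem_range.2 hk, ?_⟩
      rw [this, hk0]

/-- counting forests with a property of the extension -/
lemma ncard_forest (hG : G.Connected) (R : ℕ) (ρ0 : Config G) (Q : Config G → Prop) :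
    {f : ∀ x : inner G a R, G.neighborSet (x : V) | IsForest G a R f ∧ Q (ext a R ρ0 f)}.ncard =
    {ρ : Config G | (Acyc (ball a hG R) ρ ∧ ∀ x ∉ ball a hG R, ρ x = ρ0 x) ∧ Q ρ}.ncard := by
  have hmem : ∀ x, x ∈ ball a hG R ↔ x ∈ inner G a R := fun x => by
    rw [mem_ball]; rfl
  rw [← Set.ncard_image_of_injective _ (ext_inj a R ρ0)]
  congr 1
  ext ρ
  simp only [Set.mem_image, Set.mem_ofPred_eq]
  constructor
  · rintro ⟨f, ⟨hf1, hf2⟩, rfl⟩
    refine ⟨⟨(isForest_iff a hG R ρ0 f).1 hf1, fun x hx => ?_⟩, hf2⟩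
    rw [hmem] at hx
    exact ext_of_notMem a ρ0 f hx
  · rintro ⟨⟨h1, h2⟩, h3⟩
    have he : ext a R ρ0 (fun x => ρ (x : V)) = ρ := by
      funext x
      by_cases hx : x ∈ inner G a R
      · rw [ext_of_mem a ρ0 _ hx]
      · rw [ext_of_notMem a ρ0 _ hx, h2 x (by rwa [hmem])]
    exact ⟨fun x => ρ (x : V), ⟨(isForest_iff a hG R ρ0 _).2 (by rw [he]; exact h1),
      by rw [he]; exact h3⟩, he⟩

lemma finite_patterns (D : Finset V) (ρ0 : Config G) :
    {ρ : Config G | ∀ x ∉ D, ρ x = ρ0 x}.Finite := by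
  classical
  apply Set.Finite.of_injOn (f := fun ρ : Config G => fun x : D => ρ x)
    (t := (Set.univ : Set (∀ x : D, G.neighborSet (x : V)))) (fun _ _ => Set.mem_univ _) ?_
    Set.finite_univ
  intro ρ hρ ρ' hρ' h
  funext x
  by_cases hx : x ∈ D
  · exact congrFun h ⟨x, hx⟩
  · rw [hρ x hx, hρ' x hx]

/-- the probability of an event which depends on the coordinates in `D` only is bounded by the limit
of its forest frequencies -/
lemma measure_le_of_freq (hG : G.Connected) {μ : Measure (Config G)} (hμ : IsOWUSF G a μ)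
    (ρ0 : Config G) (M : ℕ) (Q : Config G → Prop)
    (hQ : ∀ ρ ρ' : Config G, (∀ x ∈ ball a hG M, ρ x = ρ' x) → Q ρ → Q ρ') {b : ℝ} (hb : 0 ≤ b)
    (R0 : ℕ) (hfreq : ∀ R, R0 ≤ R →
      ({f : ∀ x : inner G a R, G.neighborSet (x : V) |
        IsForest G a R f ∧ Q (ext a R ρ0 f)}.ncard : ℝ) ≤
      b * ({f : ∀ x : inner G a R, G.neighborSet (x : V) | IsForest G a R f}.ncard : ℝ)) :
    μ {ρ | Q ρ} ≤ ENNReal.ofReal b := by
  classical
  have := hμ.prob
  set P : Finset (Config G) := (finite_patterns (ball a hG M) ρ0).toFinset with hP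
  have hmemP : ∀ c, c ∈ P ↔ ∀ x ∉ ball a hG M, c x = ρ0 x := fun c => by
    rw [hP, Set.Finite.mem_toFinset]; rfl
  let proj : Config G → Config G := fun ρ x => if x ∈ ball a hG M then ρ x else ρ0 x
  have hproj : ∀ ρ, proj ρ ∈ P := by
    intro ρ
    rw [hmemP]
    intro x hx
    simp [proj, hx]
  have hproj' : ∀ ρ, ∀ x ∈ ball a hG M, proj ρ x = ρ x := by
    intro ρ x hx; simp [proj, hx]
  -- measure side
  have h1 : {ρ | Q ρ} ⊆ ⋃ c ∈ P.filter Q, {ρ : Config G | ∀ x ∈ ball a hG M, ρ x = c x} := by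
    intro ρ hρ
    rw [Set.mem_iUnion₂]
    refine ⟨proj ρ, ?_, fun x hx => (hproj' ρ x hx).symm⟩
    rw [mem_filter]
    exact ⟨hproj ρ, hQ ρ (proj ρ) (fun x hx => (hproj' ρ x hx).symm) hρ⟩
  have h2 : μ {ρ | Q ρ} ≤ ∑ c ∈ P.filter Q, μ {ρ : Config G | ∀ x ∈ ball a hG M, ρ x = c x} :=
    (measure_mono h1).trans (measure_biUnion_finset_le _ _)
  have h3 : ∑ c ∈ P.filter Q, μ {ρ : Config G | ∀ x ∈ ball a hG M, ρ x = c x} =
      ENNReal.ofReal (∑ c ∈ P.filter Q, μ.real {ρ : Config G | ∀ x ∈ ball a hG M, ρ x = c x}) := by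
    rw [ENNReal.ofReal_sum_of_nonneg (fun _ _ => measureReal_nonneg)]
    apply sum_congr rfl
    intro c _
    rw [Measure.real, ENNReal.ofReal_toReal (measure_ne_top μ _)]
  rw [h3] at h2
  refine h2.trans (ENNReal.ofReal_le_ofReal ?_)
  -- limit
  have h4 : Tendsto (fun R : ℕ => ∑ c ∈ P.filter Q, forestFreq G a R (ball a hG M) c) atTop
      (𝓝 (∑ c ∈ P.filter Q, μ.real {ρ : Config G | ∀ x ∈ ball a hG M, ρ x = c x})) :=
    tendsto_finsetSum _ (fun c _ => hμ.lim (ball a hG M) c)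
  refine le_of_tendsto h4 ?_
  filter_upwards [eventually_ge_atTop (max R0 M)] with R hR
  have hR0 : R0 ≤ R := (le_max_left _ _).trans hR
  have hRM : M ≤ R := (le_max_right _ _).trans hR
  have hfinI : Finite (inner G a R) := inner_finite a hG R
  have hfinF : Finite (∀ x : inner G a R, G.neighborSet (x : V)) := inferInstance
  have hft : Fintype (∀ x : inner G a R, G.neighborSet (x : V)) := Fintype.ofFinite _
  have hin : ∀ x ∈ ball a hG M, x ∈ inner G a R := by
    intro x hx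
    rw [mem_ball] at hx
    show G.dist a x < R
    omega
  have h5 : ∀ c ∈ P.filter Q, ({f : ∀ x : inner G a R, G.neighborSet (x : V) | IsForest G a R f ∧
      ∀ x : inner G a R, (x : V) ∈ ball a hG M → f x = c x}.ncard : ℕ) =
      #{f ∈ (univ : Finset (∀ x : inner G a R, G.neighborSet (x : V))).filter
        (fun f => IsForest G a R f ∧ Q (ext a R ρ0 f)) | proj (ext a R ρ0 f) = c} := by
    intro c hc
    rw [mem_filter, hmemP] at hc
    rw [← Set.ncard_coe_finset]
    congr 1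
    ext f
    simp only [coe_filter, mem_filter, mem_univ, true_and, Set.mem_ofPred_eq]
    constructor
    · rintro ⟨hf1, hf2⟩
      have hagree : ∀ x ∈ ball a hG M, c x = ext a R ρ0 f x := by
        intro x hx
        rw [ext_of_mem a ρ0 f (hin x hx)]
        exact (hf2 ⟨x, hin x hx⟩ hx).symm
      refine ⟨⟨hf1, hQ c _ hagree hc.2⟩, ?_⟩
      funext x
      by_cases hx : x ∈ ball a hG M
      · rw [hproj' _ x hx, hagree x hx]
      · simp only [proj, hx, if_false]; exact (hc.1 x hx).symm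
    · rintro ⟨⟨hf1, _⟩, hf3⟩
      refine ⟨hf1, fun x hx => ?_⟩
      rw [← hf3, hproj' _ _ hx, ext_of_mem a ρ0 f x.2]
  have h6 : ∑ c ∈ P.filter Q, forestFreq G a R (ball a hG M) c =
      ({f : ∀ x : inner G a R, G.neighborSet (x : V) |
        IsForest G a R f ∧ Q (ext a R ρ0 f)}.ncard : ℝ) /
      ({f : ∀ x : inner G a R, G.neighborSet (x : V) | IsForest G a R f}.ncard : ℝ) := by
    unfold forestFreq
    rw [← sum_div]
    congr 1
    rw [← Nat.cast_sum]
    congr 1
    rw [sum_congr rfl h5]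
    have h7 : {f : ∀ x : inner G a R, G.neighborSet (x : V) |
        IsForest G a R f ∧ Q (ext a R ρ0 f)}.ncard =
        #((univ : Finset (∀ x : inner G a R, G.neighborSet (x : V))).filter
          (fun f => IsForest G a R f ∧ Q (ext a R ρ0 f))) := by
      rw [← Set.ncard_coe_finset]
      congr 1
      ext f
      simp
    rw [h7]
    symm
    apply card_eq_sum_card_fiberwise (f := fun f => proj (ext a R ρ0 f))
    intro f hf
    rw [mem_coe, mem_filter] at hf ⊢
    exact ⟨hproj _, hQ _ _ (fun x hx => (hproj' _ x hx).symm) hf.2.2⟩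
  rw [h6]
  have h8 := hfreq R hR0
  rcases (Nat.cast_nonneg (α := ℝ)
    ({f : ∀ x : inner G a R, G.neighborSet (x : V) | IsForest G a R f}.ncard)).eq_or_lt with h0 | h0
  · rw [← h0]; simpa using hb
  · rwa [div_le_iff₀ h0]

variable (τ : RotorMechanism G)

lemma BadC_congr (hG : G.Connected) [Infinite V] (D : Finset V) (x : V) (c : ℝ) (n0 N : ℕ)
    (ρ ρ' : Config G) (h : ∀ y ∈ D, ρ y = ρ' y) (hb : BadC τ a D x c n0 N ρ) :
    BadC τ a D x c n0 N ρ' := by
  obtain ⟨n, h1, h2, h3, h4⟩ := hb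
  exact ⟨n, h1, h2, h3, by rwa [← od_congr τ a hG n h]⟩

lemma BadC_mono (hG : G.Connected) [Infinite V] {D D' : Finset V} (h : D ⊆ D') (x : V) (c : ℝ)
    (n0 : ℕ) {N N' : ℕ} (hN : N ≤ N') (ρ : Config G) (hb : BadC τ a D x c n0 N ρ) :
    BadC τ a D' x c n0 N' ρ := by
  obtain ⟨n, h1, h2, h3, h4⟩ := hb
  refine ⟨n, h1, h2.trans hN, h3, h4.trans ?_⟩
  exact_mod_cast od_mono_D τ a hG h n ρ x

/-- the main estimate at a vertex -/
lemma measure_bad (hG : G.Connected) [Infinite V] (ha : green G a a ≠ ⊤) {μ : Measure (Config G)}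
    (hμ : IsOWUSF G a μ) (ρ0 : Config G) (x : V) {c : ℝ} (hc : (green G a x).toReal < c)
    {ε : ℝ} (hε : 0 < ε) :
    ∃ n0 : ℕ, ∀ M, μ {ρ | BadC τ a (ball a hG M) x c n0 M ρ} ≤
      ENNReal.ofReal (2 * ε / (c - (green G a x).toReal)) := by
  set g := (green G a x).toReal with hg
  obtain ⟨T0, hT0⟩ := exists_gT a hG ha x (half_pos hε)
  obtain ⟨L0, hL0⟩ := exists_nat_ge (2 * Kc G T0 x / ε)
  rw [div_le_iff₀ hε] at hL0
  obtain ⟨n0, hn0⟩ := exists_nat_ge (g * L0 / ε)
  rw [div_le_iff₀ hε] at hn0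
  have hcg : 0 < c - g := by linarith
  refine ⟨n0, fun M => ?_⟩
  apply measure_le_of_freq a hG hμ ρ0 M
    (fun ρ => BadC τ a (ball a hG M) x c n0 M ρ) (fun ρ ρ' h => BadC_congr a τ hG _ x c n0 M ρ ρ' h)
    (by positivity) (max (max T0 M) (G.dist a x + 1))
  intro R hR
  have hRT : T0 ≤ R := (le_max_left _ _).trans ((le_max_left _ _).trans hR)
  have hRM : M ≤ R := (le_max_right _ _).trans ((le_max_left _ _).trans hR)
  have hRx : G.dist a x + 1 ≤ R := (le_max_right _ _).trans hR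
  have hfb := freq_bound τ a hG ha (ball a hG R) ρ0 x (by rw [mem_ball]; omega)
    (ε := ε) (c := c) (T0 := T0) (L0 := L0) (n0 := n0) (N := M)
    (fun z hz => by rw [mem_ball]; omega) hε hc hT0 (by linarith) (by rw [← hg]; linarith)
  have h1 := ncard_forest a hG R ρ0 (fun ρ => BadC τ a (ball a hG R) x c n0 M ρ)
  have h2 := ncard_forest a hG R ρ0 (fun _ => True)
  simp only [and_true] at h2
  rw [← h1, ← h2, ← hg] at hfb
  have hfinI : Finite (inner G a R) := inner_finite a hG R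
  have h3 : {f : ∀ x : inner G a R, G.neighborSet (x : V) |
      IsForest G a R f ∧ BadC τ a (ball a hG M) x c n0 M (ext a R ρ0 f)}.ncard ≤
      {f : ∀ x : inner G a R, G.neighborSet (x : V) |
      IsForest G a R f ∧ BadC τ a (ball a hG R) x c n0 M (ext a R ρ0 f)}.ncard := by
    apply Set.ncard_le_ncard _ (Set.toFinite _)
    rintro f ⟨hf1, hf2⟩
    exact ⟨hf1, BadC_mono a τ hG (ball_mono a hG hRM) x c n0 le_rfl _ hf2⟩
  have h4 : ({f : ∀ x : inner G a R, G.neighborSet (x : V) |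
      IsForest G a R f ∧ BadC τ a (ball a hG M) x c n0 M (ext a R ρ0 f)}.ncard : ℝ) ≤
      ({f : ∀ x : inner G a R, G.neighborSet (x : V) |
      IsForest G a R f ∧ BadC τ a (ball a hG R) x c n0 M (ext a R ρ0 f)}.ncard : ℝ) := by
    exact_mod_cast h3
  have h5 : ({f : ∀ x : inner G a R, G.neighborSet (x : V) |
      IsForest G a R f ∧ BadC τ a (ball a hG M) x c n0 M (ext a R ρ0 f)}.ncard : ℝ) * (c - g) ≤
      2 * ε * ({f : ∀ x : inner G a R, G.neighborSet (x : V) | IsForest G a R f}.ncard : ℝ) := by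
    nlinarith
  rw [div_mul_eq_mul_div, le_div_iff₀ hcg]
  exact h5

lemma limsup_le_of_not_bad (hG : G.Connected) [Infinite V] (ρ : Config G) (x : V) {c : ℝ}
    (hc : 0 ≤ c) (n0 : ℕ) (h : ∀ M, ¬ BadC τ a (ball a hG M) x c n0 M ρ) :
    limsup (fun n : ℕ => occ τ a n ρ x / (n : ℝ≥0∞)) atTop ≤ ENNReal.ofReal c := by
  apply limsup_le_of_le
  · isBoundedDefault
  filter_upwards [eventually_ge_atTop (max n0 1)] with n hn
  have hn0 : n0 ≤ n := (le_max_left _ _).trans hn
  have hn1 : 1 ≤ n := (le_max_right _ _).trans hn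
  have hlt : ∀ M, (od τ a (ball a hG M) n ρ x : ℝ) < c * n := by
    intro M
    have h1 := h (max M n)
    unfold BadC at h1
    push Not at h1
    have h2 := h1 n hn0 (le_max_right _ _) hn1
    refine lt_of_le_of_lt ?_ h2
    exact_mod_cast od_mono_D τ a hG (ball_mono a hG (le_max_left M n)) n ρ x
  obtain ⟨C, hC⟩ := exists_nat_ge (c * n)
  obtain ⟨M, hM⟩ := occ_le_od τ a hG n ρ x ⟨C, fun M => by
    have := (hlt M).le.trans hC
    exact_mod_cast this⟩
  have hnr : (0 : ℝ) < n := by exact_mod_cast hn1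
  rw [ENNReal.div_le_iff (by positivity) (by simp)]
  refine hM.trans ?_
  have h3 : ENNReal.ofReal c * (n : ℝ≥0∞) = ENNReal.ofReal (c * n) := by
    rw [ENNReal.ofReal_mul hc, ENNReal.ofReal_natCast]
  rw [h3, ← ENNReal.ofReal_natCast]
  exact ENNReal.ofReal_le_ofReal (hlt M).le

theorem main (hG : G.Connected) [Infinite V] (ha : green G a a ≠ ⊤) {μ : Measure (Config G)}
    (hμ : IsOWUSF G a μ) :
    ∀ᵐ ρ ∂μ, ∀ x, limsup (fun n : ℕ => occ τ a n ρ x / (n : ℝ≥0∞)) atTop ≤ green G a x := by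
  classical
  have := hμ.prob
  have hcount : Countable V := countable_of_connected hG
  rw [ae_all_iff]
  intro x
  set g := (green G a x).toReal with hg
  have hg0 : 0 ≤ g := ENNReal.toReal_nonneg
  have hgx : green G a x = ENNReal.ofReal g := by
    rw [hg, ENNReal.ofReal_toReal (green_ne_top a hG ha x)]
  -- a reference configuration
  have hne : Nonempty (Config G) := by
    by_contra hc
    rw [not_nonempty_iff] at hc
    have h1 : μ Set.univ = 1 := measure_univ
    rw [Set.univ_eq_empty_iff.2 hc] at h1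
    simp at h1
  obtain ⟨ρ0⟩ := hne
  have hk : ∀ k : ℕ, ∀ᵐ ρ ∂μ, limsup (fun n : ℕ => occ τ a n ρ x / (n : ℝ≥0∞)) atTop ≤
      ENNReal.ofReal (g + 1 / (k + 1)) := by
    intro k
    set c : ℝ := g + 1 / (k + 1) with hc
    have hcg : g < c := by rw [hc]; have : (0 : ℝ) < 1 / (k + 1) := by positivity
                           linarith
    rw [ae_iff]
    apply le_antisymm _ bot_le
    apply ENNReal.le_of_forall_pos_le_add
    intro δ hδ _
    rw [bot_eq_zero, zero_add]
    have hδ' : (0 : ℝ) < δ := by exact_mod_cast hδ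
    have hcg' : 0 < c - g := by linarith
    obtain ⟨n0, hn0⟩ := measure_bad a τ hG ha hμ ρ0 x hcg (ε := δ * (c - g) / 2) (by positivity)
    have hval : 2 * ((δ : ℝ) * (c - g) / 2) / (c - (green G a x).toReal) = δ := by
      rw [← hg]; field_simp
    rw [hval] at hn0
    have hsub : {ρ : Config G | ¬ limsup (fun n : ℕ => occ τ a n ρ x / (n : ℝ≥0∞)) atTop ≤
        ENNReal.ofReal c} ⊆ ⋃ M : ℕ, {ρ | BadC τ a (ball a hG M) x c n0 M ρ} := by
      intro ρ hρ
      by_contra hcon
      apply hρ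
      apply limsup_le_of_not_bad a τ hG ρ x (by linarith) n0
      intro M hM
      exact hcon (Set.mem_iUnion.2 ⟨M, hM⟩)
    refine (measure_mono hsub).trans ?_
    have hmono : Monotone (fun M : ℕ => {ρ | BadC τ a (ball a hG M) x c n0 M ρ}) :=
      fun M M' hMM' ρ hρ => BadC_mono a τ hG (ball_mono a hG hMM') x c n0 hMM' ρ hρ
    rw [hmono.measure_iUnion]
    apply iSup_le
    intro M
    refine (hn0 M).trans ?_
    rw [ENNReal.ofReal_coe_nnreal]
  rw [← ae_all_iff] at hk
  filter_upwards [hk] with ρ hρ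
  rw [hgx]
  have h1 : Tendsto (fun k : ℕ => ENNReal.ofReal (g + 1 / ((k : ℝ) + 1))) atTop
      (𝓝 (ENNReal.ofReal (g + 0))) := by
    apply ENNReal.tendsto_ofReal
    exact tendsto_const_nhds.add tendsto_one_div_add_atTop_nhds_zero_nat
  rw [add_zero] at h1
  exact ge_of_tendsto' h1 hρ

end Pool.Agent.Lib.MP_42a48c_pr
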