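import Pool.Agent.Lib.MP_42a48c_pr.Count

/-!
# Solutions and minimal solutions on a finite set
-/

open Finset

namespace Pool.Agent.Lib.MP_42a48c_pr

universe u

variable {V : Type u} {G : SimpleGraph V}

/-- a nonempty proper subset of a connected graph has a boundary edge -/
lemma exists_cut (hG : G.Connected) (S : Set V) (h1 : ∃ x, x ∈ S) (h2 : ∃ x, x ∉ S) :
    ∃ x ∈ S, ∃ y ∉ S, G.Adj x y := by
  obtain ⟨x, hx⟩ := h1
  obtain ⟨y, hy⟩ := h2
  obtain ⟨p⟩ := hG.preconnected x y
  obtain ⟨d, _, hd1, hd2⟩ := p.exists_boundary_dart S hx hy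
  exact ⟨d.fst, hd1, d.snd, hd2, d.adj⟩

open Classical in
/-- the balance sum of `v` at `x`, for `n` walkers started at `a`, in the finite set `D` -/
noncomputable def bal (τ : RotorMechanism G) (a : V) (D : Finset V) (n : ℕ) (ρ : Config G)
    (v : V → ℕ) (x : V) : ℕ :=
  (if x = a then n else 0) + ∑ y ∈ D, cnt τ y (ρ y) (v y) x

/-- `v` is an `n`-solution on `D` -/
def IsSol (τ : RotorMechanism G) (a : V) (D : Finset V) (n : ℕ) (ρ : Config G) (v : V → ℕ) :
    Prop := ∀ x ∈ D, bal τ a D n ρ v x ≤ v x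

/-- the minimal `n`-solution on `D` -/
noncomputable def od (τ : RotorMechanism G) (a : V) (D : Finset V) (n : ℕ) (ρ : Config G)
    (x : V) : ℕ := sInf {m | ∃ v, IsSol τ a D n ρ v ∧ v x = m}

variable (τ : RotorMechanism G) (a : V)

lemma bal_mono {D : Finset V} {n : ℕ} {ρ : Config G} {v v' : V → ℕ} (h : ∀ y ∈ D, v y ≤ v' y)
    (x : V) : bal τ a D n ρ v x ≤ bal τ a D n ρ v' x := by
  unfold bal
  gcongr with y hy
  exact cnt_mono τ y (ρ y) (h y hy) x

lemma bal_mono_n {D : Finset V} {n n' : ℕ} {ρ : Config G} {v : V → ℕ} (h : n ≤ n')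
    (x : V) : bal τ a D n ρ v x ≤ bal τ a D n' ρ v x := by
  unfold bal
  split_ifs <;> omega

lemma bal_congr {D : Finset V} {n : ℕ} {ρ ρ' : Config G} {v v' : V → ℕ} (h : ∀ y ∈ D, v y = v' y)
    (h' : ∀ y ∈ D, ρ y = ρ' y) (x : V) : bal τ a D n ρ v x = bal τ a D n ρ' v' x := by
  unfold bal
  congr 1
  exact sum_congr rfl (fun y hy => by rw [h y hy, h' y hy])

/-- total mass balance. -/
lemma sum_bal_le (D A : Finset V) (n : ℕ) (ρ : Config G) (v : V → ℕ) :
    ∑ x ∈ A, bal τ a D n ρ v x ≤ n + ∑ y ∈ D, ∑ x ∈ A, cnt τ y (ρ y) (v y) x := by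
  classical
  unfold bal
  rw [sum_add_distrib, sum_comm (s := A)]
  gcongr
  rw [sum_ite_eq']
  split_ifs <;> simp

variable [G.LocallyFinite]

/-- existence of solutions -/
lemma exists_sol (hG : G.Connected) [Infinite V] (D : Finset V) (n : ℕ) (ρ : Config G) :
    ∃ v, IsSol τ a D n ρ v := by
  classical
  -- the iteration
  let Φ : (V → ℕ) → (V → ℕ) := fun v x => if x ∈ D then bal τ a D n ρ v x else 0
  let w : ℕ → V → ℕ := fun k => Φ^[k] 0
  have hw : ∀ k, w (k + 1) = Φ (w k) := fun k => by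
    simp only [w]; rw [Function.iterate_succ_apply']
  have hΦ : ∀ v v' : V → ℕ, v ≤ v' → Φ v ≤ Φ v' := by
    intro v v' h x
    simp only [Φ]
    split_ifs
    · exact bal_mono τ a (fun y _ => h y) x
    · exact le_rfl
  have hmono : ∀ k, w k ≤ w (k + 1) := by
    intro k
    induction k with
    | zero => intro x; simp [w]
    | succ k ih => rw [hw, hw (k + 1)]; exact hΦ _ _ ih
  have hmono' : Monotone w := monotone_nat_of_le_succ hmono
  -- bounded exits
  have hexit : ∀ k, ∀ y ∈ D, ∀ z ∉ D, cnt τ y (ρ y) (w k y) z ≤ n := by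
    intro k y hy z hz
    have h1 : ∑ x ∈ D, w k x ≤ ∑ x ∈ D, bal τ a D n ρ (w k) x := by
      apply sum_le_sum
      intro x hx
      have := hmono k x
      rw [hw] at this
      simpa [Φ, hx] using this
    have h2 := sum_bal_le τ a D D n ρ (w k)
    have h3 : ∀ y' ∈ D, (if y' = y then cnt τ y (ρ y) (w k y) z else 0) +
        ∑ x ∈ D, cnt τ y' (ρ y') (w k y') x ≤ w k y' := by
      intro y' _
      split_ifs with h
      · subst h
        have := sum_cnt_le τ y' (ρ y') (w k y') (insert z D)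
        rwa [sum_insert hz] at this
      · simpa using sum_cnt_le τ y' (ρ y') (w k y') D
    have h4 := sum_le_sum h3
    rw [sum_add_distrib, sum_ite_eq' D y] at h4
    simp only [hy, if_true] at h4
    omega
  -- boundedness
  have hbdd : ∀ x, ∃ C, ∀ k, w k x ≤ C := by
    by_contra hcon
    push Not at hcon
    obtain ⟨x0, hx0⟩ := hcon
    have hsub : ∀ x, (∀ C, ∃ k, C < w k x) → x ∈ D := by
      intro x hx
      by_contra hxD
      obtain ⟨k, hk⟩ := hx 0
      cases k with
      | zero => simp [w] at hk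
      | succ k => rw [hw] at hk; simp [Φ, hxD] at hk
    obtain ⟨x, hx, y, hy, hadj⟩ := exists_cut hG {x | ∀ C, ∃ k, C < w k x} ⟨x0, hx0⟩ (by
      obtain ⟨z, hz⟩ := Infinite.exists_notMem_finset D
      exact ⟨z, fun h => hz (hsub z h)⟩)
    have hxD := hsub x hx
    by_cases hyD : y ∈ D
    · have : ∃ C, ∀ k, w k y ≤ C := by
        by_contra hc; push Not at hc; exact hy hc
      obtain ⟨C, hC⟩ := this
      obtain ⟨k, hk⟩ := hx (G.degree x * (C + 1))
      have h1 : cnt τ x (ρ x) (w k x) y ≤ C := by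
        refine le_trans ?_ (hC (k + 1))
        rw [hw]
        simp only [Φ, hyD, if_true, bal]
        refine le_trans ?_ (Nat.le_add_left _ _)
        exact single_le_sum (f := fun z => cnt τ z (ρ z) (w k z) y) (fun _ _ => Nat.zero_le _) hxD
      have := le_mul_of_cnt_le τ x (ρ x) (w k x) hadj h1
      omega
    · obtain ⟨k, hk⟩ := hx (G.degree x * (n + 1))
      have := le_mul_of_cnt_le τ x (ρ x) (w k x) hadj (hexit k x hxD y hyD)
      omega
  -- stabilisation
  choose C hC using hbdd
  have hstab : ∃ k, ∀ x ∈ D, w (k + 1) x = w k x := by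
    by_contra hcon
    push Not at hcon
    have hgrow : ∀ k, k + ∑ x ∈ D, w 0 x ≤ ∑ x ∈ D, w k x := by
      intro k
      induction k with
      | zero => simp
      | succ k ih =>
        obtain ⟨x, hx, hne⟩ := hcon k
        have : ∑ x ∈ D, w k x < ∑ x ∈ D, w (k + 1) x :=
          sum_lt_sum (fun i _ => hmono k i) ⟨x, hx, lt_of_le_of_ne (hmono k x) (Ne.symm hne)⟩
        omega
    have h1 := hgrow (∑ x ∈ D, C x + 1)
    have h2 : ∑ x ∈ D, w (∑ x ∈ D, C x + 1) x ≤ ∑ x ∈ D, C x := sum_le_sum (fun x _ => hC x _)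
    omega
  obtain ⟨k, hk⟩ := hstab
  refine ⟨w k, fun x hx => ?_⟩
  have := hk x hx
  rw [hw] at this
  simp only [Φ, hx, if_true] at this
  exact this.le

omit [G.LocallyFinite] in
lemma od_le {D : Finset V} {n : ℕ} {ρ : Config G} {v : V → ℕ} (h : IsSol τ a D n ρ v) (x : V) :
    od τ a D n ρ x ≤ v x := Nat.sInf_le ⟨v, h, rfl⟩

section

variable (hG : G.Connected) [Infinite V]
include hG

lemma exists_od_eq (D : Finset V) (n : ℕ) (ρ : Config G) (x : V) :
    ∃ v, IsSol τ a D n ρ v ∧ v x = od τ a D n ρ x := by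
  have hne : {m | ∃ v, IsSol τ a D n ρ v ∧ v x = m}.Nonempty := by
    obtain ⟨v, hv⟩ := exists_sol τ a hG D n ρ
    exact ⟨v x, v, hv, rfl⟩
  exact Nat.sInf_mem hne

lemma od_isSol (D : Finset V) (n : ℕ) (ρ : Config G) : IsSol τ a D n ρ (od τ a D n ρ) := by
  intro x hx
  obtain ⟨v, hv, hvx⟩ := exists_od_eq τ a hG D n ρ x
  rw [← hvx]
  exact (bal_mono τ a (fun y _ => od_le τ a hv y) x).trans (hv x hx)

lemma od_off {D : Finset V} (n : ℕ) (ρ : Config G) {x : V} (hx : x ∉ D) :
    od τ a D n ρ x = 0 := by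
  classical
  obtain ⟨v, hv⟩ := exists_sol τ a hG D n ρ
  have h : IsSol τ a D n ρ (fun y => if y ∈ D then v y else 0) := by
    intro y hy
    rw [bal_congr τ a (v' := v) (ρ' := ρ) (fun z hz => by simp [hz]) (fun _ _ => rfl)]
    simpa [hy] using hv y hy
  have := od_le τ a h x
  simpa [hx] using this

/-- at the minimal solution the balance equation holds. -/
lemma od_eq {D : Finset V} (n : ℕ) (ρ : Config G) {x : V} (hx : x ∈ D) :
    bal τ a D n ρ (od τ a D n ρ) x = od τ a D n ρ x := by
  classical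
  by_contra hne
  have hlt := lt_of_le_of_ne (od_isSol τ a hG D n ρ x hx) hne
  have h : IsSol τ a D n ρ (fun y => if y = x then od τ a D n ρ x - 1 else od τ a D n ρ y) := by
    intro y hy
    have h1 : bal τ a D n ρ (fun y => if y = x then od τ a D n ρ x - 1 else od τ a D n ρ y) y ≤
        bal τ a D n ρ (od τ a D n ρ) y := by
      apply bal_mono
      intro z _
      split_ifs with hz
      · subst hz; omega
      · exact le_rfl
    dsimp only
    split_ifs with hyx
    · subst hyx; omega
    · exact h1.trans (od_isSol τ a hG D n ρ y hy)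
  have := od_le τ a h x
  simp only [if_true] at this
  omega

lemma od_congr {D : Finset V} (n : ℕ) {ρ ρ' : Config G} (h : ∀ y ∈ D, ρ y = ρ' y) :
    od τ a D n ρ = od τ a D n ρ' := by
  funext x
  apply le_antisymm
  · apply od_le
    intro y hy
    rw [bal_congr τ a (fun _ _ => rfl) h]
    exact od_isSol τ a hG D n ρ' y hy
  · apply od_le
    intro y hy
    rw [bal_congr τ a (fun _ _ => rfl) (fun z hz => (h z hz).symm)]
    exact od_isSol τ a hG D n ρ y hy

lemma od_mono_D {D D' : Finset V} (h : D ⊆ D') (n : ℕ) (ρ : Config G) (x : V) :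
    od τ a D n ρ x ≤ od τ a D' n ρ x := by
  classical
  apply od_le
  intro y hy
  refine le_trans ?_ (od_isSol τ a hG D' n ρ y (h hy))
  unfold bal
  gcongr

lemma od_mono_n (D : Finset V) {n n' : ℕ} (h : n ≤ n') (ρ : Config G) (x : V) :
    od τ a D n ρ x ≤ od τ a D n' ρ x := by
  apply od_le
  intro y hy
  exact (bal_mono_n τ a h y).trans (od_isSol τ a hG D n' ρ y hy)

end

/-- the configuration after one walk in `D` -/
noncomputable def sg (D : Finset V) (ρ : Config G) : Config G :=
  fun y => ((τ.next y) ^ (od τ a D 1 ρ y)) (ρ y)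

section

variable (hG : G.Connected) [Infinite V]
include hG

omit hG [G.LocallyFinite] [Infinite V] in
lemma bal_split {D : Finset V} (n m : ℕ) (ρ : Config G) (s t : V → ℕ) (x : V) :
    bal τ a D (m + n) ρ (fun y => s y + t y) x =
      bal τ a D m ρ s x + bal τ a D n (fun y => ((τ.next y) ^ (s y)) (ρ y)) t x := by
  classical
  unfold bal
  have : ∀ y, cnt τ y (ρ y) (s y + t y) x =
      cnt τ y (ρ y) (s y) x + cnt τ y (((τ.next y) ^ (s y)) (ρ y)) (t y) x :=
    fun y => cnt_add τ y (ρ y) (s y) (t y) x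
  simp only [this, sum_add_distrib]
  split_ifs <;> ring

/-- the cocycle property -/
lemma od_cocycle (D : Finset V) (m n : ℕ) (ρ : Config G) (x : V) :
    od τ a D (m + n) ρ x =
      od τ a D m ρ x + od τ a D n (fun y => ((τ.next y) ^ (od τ a D m ρ y)) (ρ y)) x := by
  set s := od τ a D m ρ with hs
  set ρ' : Config G := fun y => ((τ.next y) ^ (s y)) (ρ y) with hρ'
  set t := od τ a D n ρ' with ht
  apply le_antisymm
  · have h : IsSol τ a D (m + n) ρ (fun y => s y + t y) := by
      intro y hy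
      rw [bal_split τ a]
      exact add_le_add (od_isSol τ a hG D m ρ y hy) (od_isSol τ a hG D n ρ' y hy)
    exact od_le τ a h x
  · set v := od τ a D (m + n) ρ with hv
    have hsv : ∀ y, s y ≤ v y := fun y => od_mono_n τ a hG D (Nat.le_add_right m n) ρ y
    have h : IsSol τ a D n ρ' (fun y => v y - s y) := by
      intro y hy
      have h1 := bal_split τ a (D := D) n m ρ s (fun y => v y - s y) y
      have h2 : bal τ a D (m + n) ρ (fun y => s y + (v y - s y)) y = bal τ a D (m + n) ρ v y := by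
        apply bal_congr
        · intro z _; have := hsv z; omega
        · intro _ _; rfl
      rw [h2] at h1
      have h3 := od_isSol τ a hG D (m + n) ρ y hy
      have h4 := od_eq τ a hG m ρ hy
      rw [← hs] at h4
      rw [← hv] at h3
      have h5 := hsv y
      dsimp only
      rw [← hρ'] at h1
      omega
    have h6 := od_le τ a h x
    have h7 := hsv x
    rw [← ht] at h6
    omega

lemma sg_iterate (D : Finset V) (n : ℕ) (ρ : Config G) :
    (sg τ a D)^[n] ρ = fun y => ((τ.next y) ^ (od τ a D n ρ y)) (ρ y) := by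
  induction n generalizing ρ with
  | zero =>
    have : ∀ y, od τ a D 0 ρ y = 0 := by
      intro y
      have h : IsSol τ a D 0 ρ (fun _ => 0) := by
        intro x _; simp [bal, cnt_zero]
      have := od_le τ a h y
      omega
    funext y
    simp [this]
  | succ n ih =>
    rw [Function.iterate_succ_apply, ih]
    funext y
    have h := od_cocycle τ a hG D 1 n ρ y
    rw [add_comm 1 n] at h
    rw [h]
    have : (fun y => ((τ.next y) ^ (od τ a D 1 ρ y)) (ρ y)) = sg τ a D ρ := rfl
    rw [this]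
    conv_rhs => rw [add_comm, pow_add, Equiv.Perm.mul_apply]
    rfl

lemma od_add (D : Finset V) (m n : ℕ) (ρ : Config G) (x : V) :
    od τ a D (m + n) ρ x = od τ a D m ρ x + od τ a D n ((sg τ a D)^[m] ρ) x := by
  rw [od_cocycle τ a hG, sg_iterate τ a hG]

lemma od_eq_sum (D : Finset V) (n : ℕ) (ρ : Config G) (x : V) :
    od τ a D n ρ x = ∑ i ∈ range n, od τ a D 1 ((sg τ a D)^[i] ρ) x := by
  induction n with
  | zero =>
    have h : IsSol τ a D 0 ρ (fun _ => 0) := by
      intro x _; simp [bal, cnt_zero]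
    have := od_le τ a h x
    simp; omega
  | succ n ih => rw [od_add τ a hG, sum_range_succ, ih]

lemma sg_off {D : Finset V} (ρ : Config G) {x : V} (hx : x ∉ D) : sg τ a D ρ x = ρ x := by
  simp [sg, od_off τ a hG 1 ρ hx]

end

end Pool.Agent.Lib.MP_42a48c_pr
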